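import Pool.Agent.J4.H94.CC.Seq

/-! The annihilator of order four. -/

set_option autoImplicit false
set_option maxHeartbeats 400000
set_option linter.unusedSimpArgs false

namespace Pool.Agent.J4.H94.CC

open Polynomial Filter Finset

section op

variable {R : Type*} [CommRing R]

def M1 (a b A B m : ℕ → R) : R := A 1 * b 1 * A 2 * b 2 * B 1 - m 1 * a 1 * B 1 * a 2 * B 2 * b 1
def M2 (a b A B m : ℕ → R) : R := m 0 * a 0 * A 2 * b 2 * B 1 - m 1 * A 0 * a 2 * B 2 * b 1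
def M3 (a b A B m : ℕ → R) : R := m 0 * a 0 * a 1 * B 1 - A 0 * A 1 * b 1

def p0 (a b A B m : ℕ → R) : R := m 0 * b 0 * B 0 * M1 a b A B m
def p1 (a b A B m : ℕ → R) : R := m 0 * a 0 * A 0 * M1 a b A B m +
  (m 0 * b 1 * B 1 - m 0 * a 1 * B 1 * a 0 - A 1 * b 1 * A 0) * M2 a b A B m +
  (m 1 * a 2 * B 2 * b 1 * A 0 + m 0 * A 2 * b 2 * B 1 * a 0) * M3 a b A B m
def p2 (a b A B m : ℕ → R) : R := -(m 0) ^ 2 * M1 a b A B m + m 0 * a 1 * A 1 * M2 a b A B m +
  (m 0 * m 1 * b 2 * B 2 - m 0 * m 1 * a 2 * B 2 * a 1 - m 0 * A 2 * b 2 * A 1) * M3 a b A B m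
def p3 (a b A B m : ℕ → R) : R := -(m 0 * m 1) * M2 a b A B m + m 0 * m 1 * a 2 * A 2 * M3 a b A B m
def p4 (a b A B m : ℕ → R) : R := -(m 0 * m 1 * m 2) * M3 a b A B m

/-- elimination -/
lemma elim {a b A B m s t : ℕ → R} (h : ∀ i, s (i + 2) = a i * s (i + 1) - b i * s i)
    (H : ∀ i, m i * t (i + 2) = A i * t (i + 1) - B i * t i) :
    p0 a b A B m * (s 0 * t 0) + p1 a b A B m * (s 1 * t 1) + p2 a b A B m * (s 2 * t 2) +
      p3 a b A B m * (s 3 * t 3) + p4 a b A B m * (s 4 * t 4) = 0 := by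
  have h2 : s 2 = a 0 * s 1 - b 0 * s 0 := h 0
  have h3 : s 3 = a 1 * s 2 - b 1 * s 1 := h 1
  have h4 : s 4 = a 2 * s 3 - b 2 * s 2 := h 2
  have H2 : m 0 * t 2 = A 0 * t 1 - B 0 * t 0 := H 0
  have H3 : m 1 * t 3 = A 1 * t 2 - B 1 * t 1 := H 1
  have H4 : m 2 * t 4 = A 2 * t 3 - B 2 * t 2 := H 2
  unfold p0 p1 p2 p3 p4
  rw [h4, h3, h2]
  set s2 := a 0 * s 1 - b 0 * s 0 with hs2
  set s3 := a 1 * s2 - b 1 * s 1 with hs3
  set s4 := a 2 * s3 - b 2 * s2 with hs4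
  have c4 : -(m 0 * m 1 * m 2) * M3 a b A B m * (s4 * t 4) =
      -(m 0 * m 1) * M3 a b A B m * s4 * (A 2 * t 3 - B 2 * t 2) := by
    linear_combination (-(m 0 * m 1) * M3 a b A B m * s4) * H4
  rw [c4]
  have c3 : (-(m 0 * m 1) * M2 a b A B m + m 0 * m 1 * a 2 * A 2 * M3 a b A B m) * (s3 * t 3) +
      -(m 0 * m 1) * M3 a b A B m * s4 * (A 2 * t 3 - B 2 * t 2) =
      (-(m 0) * M2 a b A B m * s3 + m 0 * a 2 * A 2 * M3 a b A B m * s3 -
        m 0 * M3 a b A B m * s4 * A 2) * (A 1 * t 2 - B 1 * t 1) +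
      m 0 * m 1 * M3 a b A B m * s4 * B 2 * t 2 := by
    linear_combination (-(m 0) * M2 a b A B m * s3 + m 0 * a 2 * A 2 * M3 a b A B m * s3 -
        m 0 * M3 a b A B m * s4 * A 2) * H3
  have c2 : (-(m 0) * M1 a b A B m * s2 + a 1 * A 1 * M2 a b A B m * s2 +
      (m 1 * b 2 * B 2 - m 1 * a 2 * B 2 * a 1 - A 2 * b 2 * A 1) * M3 a b A B m * s2 +
      (-M2 a b A B m * s3 + a 2 * A 2 * M3 a b A B m * s3 - M3 a b A B m * s4 * A 2) * A 1 +
      m 1 * M3 a b A B m * s4 * B 2) * (m 0 * t 2) =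
      (-(m 0) * M1 a b A B m * s2 + a 1 * A 1 * M2 a b A B m * s2 +
      (m 1 * b 2 * B 2 - m 1 * a 2 * B 2 * a 1 - A 2 * b 2 * A 1) * M3 a b A B m * s2 +
      (-M2 a b A B m * s3 + a 2 * A 2 * M3 a b A B m * s3 - M3 a b A B m * s4 * A 2) * A 1 +
      m 1 * M3 a b A B m * s4 * B 2) * (A 0 * t 1 - B 0 * t 0) := by rw [H2]
  have key : m 0 * b 0 * B 0 * M1 a b A B m * (s 0 * t 0) +
      (m 0 * a 0 * A 0 * M1 a b A B m +
      (m 0 * b 1 * B 1 - m 0 * a 1 * B 1 * a 0 - A 1 * b 1 * A 0) * M2 a b A B m +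
      (m 1 * a 2 * B 2 * b 1 * A 0 + m 0 * A 2 * b 2 * B 1 * a 0) * M3 a b A B m) * (s 1 * t 1) +
      m 0 * (-M2 a b A B m * s3 + a 2 * A 2 * M3 a b A B m * s3 -
        M3 a b A B m * s4 * A 2) * (- B 1 * t 1) +
      (-(m 0) * M1 a b A B m * s2 + a 1 * A 1 * M2 a b A B m * s2 +
      (m 1 * b 2 * B 2 - m 1 * a 2 * B 2 * a 1 - A 2 * b 2 * A 1) * M3 a b A B m * s2 +
      (-M2 a b A B m * s3 + a 2 * A 2 * M3 a b A B m * s3 - M3 a b A B m * s4 * A 2) * A 1 +
      m 1 * M3 a b A B m * s4 * B 2) * (A 0 * t 1 - B 0 * t 0) = 0 := by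
    rw [hs4, hs3, hs2]
    unfold M1 M2 M3
    ring
  linear_combination c3 + c2 + key

def ca (q Q : R) (i : ℕ) : R := 1 + q - q ^ 2 * (q ^ i * Q) + q ^ 4 * (q ^ i * Q) ^ 2
def cb (q Q : R) (i : ℕ) : R := q - q ^ 2 * (q ^ i * Q)
def cA (q Q : R) (i : ℕ) : R :=
  q ^ 4 * (q ^ i * Q) ^ 2 + q ^ 3 * (q ^ i * Q) ^ 2 - q ^ 2 * (q ^ i * Q) + 1
def cB (q Q : R) (i : ℕ) : R := q ^ 3 * (q ^ i * Q) ^ 2 - q ^ 2 * (q ^ i * Q)
def cm (q Q : R) (i : ℕ) : R := q ^ 4 * (q ^ i * Q) ^ 2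

def P0 (q Q : R) : R := p0 (ca q Q) (cb q Q) (cA q Q) (cB q Q) (cm q Q)
def P1 (q Q : R) : R := p1 (ca q Q) (cb q Q) (cA q Q) (cB q Q) (cm q Q)
def P2 (q Q : R) : R := p2 (ca q Q) (cb q Q) (cA q Q) (cB q Q) (cm q Q)
def P3 (q Q : R) : R := p3 (ca q Q) (cb q Q) (cA q Q) (cB q Q) (cm q Q)
def P4 (q Q : R) : R := p4 (ca q Q) (cb q Q) (cA q Q) (cB q Q) (cm q Q)

variable {S : Type*} [CommRing S] (f : R →+* S) (q Q : R)

lemma P0_map : f (P0 q Q) = P0 (f q) (f Q) := by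
  simp only [P0, p0, M1, M2, M3, ca, cb, cA, cB, cm, map_add, map_sub, map_mul, map_pow, map_one,
    map_neg]
lemma P1_map : f (P1 q Q) = P1 (f q) (f Q) := by
  simp only [P1, p1, M1, M2, M3, ca, cb, cA, cB, cm, map_add, map_sub, map_mul, map_pow, map_one,
    map_neg]
lemma P2_map : f (P2 q Q) = P2 (f q) (f Q) := by
  simp only [P2, p2, M1, M2, M3, ca, cb, cA, cB, cm, map_add, map_sub, map_mul, map_pow, map_one,
    map_neg]
lemma P3_map : f (P3 q Q) = P3 (f q) (f Q) := by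
  simp only [P3, p3, M1, M2, M3, ca, cb, cA, cB, cm, map_add, map_sub, map_mul, map_pow, map_one,
    map_neg]
lemma P4_map : f (P4 q Q) = P4 (f q) (f Q) := by
  simp only [P4, p4, M1, M2, M3, ca, cb, cA, cB, cm, map_add, map_sub, map_mul, map_pow, map_one,
    map_neg]

/-- the operator -/
def opR (q Q E : R) : R := P0 q Q + P1 q Q * E + P2 q Q * E ^ 2 + P3 q Q * E ^ 3 + P4 q Q * E ^ 4

lemma opR_map (E : R) : f (opR q Q E) = opR (f q) (f Q) (f E) := by
  simp only [opR, map_add, map_mul, map_pow, P0_map, P1_map, P2_map, P3_map, P4_map]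

/-- the factor of the specialisation -/
def kap (Q : R) : R := Q ^ 2 * (1 - Q) * (Q ^ 3 * (Q ^ 2 - Q + 2) ^ 2 + (2 * Q ^ 2 - Q + 1) ^ 2)

lemma kap_map : f (kap Q) = kap (f Q) := by
  simp only [kap, map_add, map_sub, map_mul, map_pow, map_one, map_ofNat]

lemma opR_one (E : R) : opR 1 Q E = kap Q * chi Q E := by
  simp only [opR, P0, P1, P2, P3, P4, p0, p1, p2, p3, p4, M1, M2, M3, ca, cb, cA, cB, cm, one_pow,
    one_mul, kap, chi]
  ring

end op

/-- the annihilator of order four -/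
noncomputable def op : A[X] := opR (C (C X)) (C X) X

lemma op_eq : op = monomial 0 (P0 (C X) X : A) + monomial 1 (P1 (C X) X : A) +
    monomial 2 (P2 (C X) X : A) + monomial 3 (P3 (C X) X : A) + monomial 4 (P4 (C X) X : A) := by
  have e0 : P0 (R := A[X]) (C (C X)) (C X) = C (P0 (C X) X : A) := by
    rw [P0_map (R := A) (S := A[X])]
  have e1 : P1 (R := A[X]) (C (C X)) (C X) = C (P1 (C X) X : A) := by
    rw [P1_map (R := A) (S := A[X])]
  have e2 : P2 (R := A[X]) (C (C X)) (C X) = C (P2 (C X) X : A) := by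
    rw [P2_map (R := A) (S := A[X])]
  have e3 : P3 (R := A[X]) (C (C X)) (C X) = C (P3 (C X) X : A) := by
    rw [P3_map (R := A) (S := A[X])]
  have e4 : P4 (R := A[X]) (C (C X)) (C X) = C (P4 (C X) X : A) := by
    rw [P4_map (R := A) (S := A[X])]
  unfold op opR
  rw [e0, e1, e2, e3, e4]
  simp only [← C_mul_X_pow_eq_monomial, pow_zero, mul_one, pow_one]

lemma op_rho : op.map rho = C (kap X) * chi (C X) (X : Polynomial ℤ[X]) := by
  have h : op.map rho = mapRingHom rho op := rfl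
  rw [h]
  unfold op
  refine (opR_map (R := A[X]) (S := Polynomial ℤ[X]) (mapRingHom rho) (C (C X)) (C X) X).trans ?_
  have e1 : mapRingHom rho (C (C X)) = 1 := by simp [rho]
  have e2 : mapRingHom rho (C X) = C X := by simp [rho]
  have e3 : mapRingHom rho X = X := by simp
  rw [e1, e2, e3, opR_one]
  congr 1
  exact (kap_map (R := ℤ[X]) (S := Polynomial ℤ[X]) C X).symm

section ann

variable {F : Type} [Field F] {q : F}

lemma ev_q (n : ℕ) : ev q n (C X) = q := by simp [ev]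

lemma ev_Q (n : ℕ) : ev q n X = q ^ n := by simp [ev]

theorem op_ann (hq : q ≠ 0) : Ann q (fh q) op := by
  unfold Ann
  filter_upwards with n
  rw [op_eq, act_add, act_add, act_add, act_add, act_monomial, act_monomial, act_monomial,
    act_monomial, act_monomial, P0_map, P1_map, P2_map, P3_map, P4_map, ev_q, ev_Q]
  have h := elim (a := ca q (q ^ n)) (b := cb q (q ^ n)) (A := cA q (q ^ n)) (B := cB q (q ^ n))
    (m := cm q (q ^ n)) (s := fun i => Sq q (n + i)) (t := fun i => Sq q⁻¹ (n + i)) (by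
      intro i
      have := Sq_rec hq (n + i)
      rw [show n + (i + 2) = n + i + 2 by ring, show n + (i + 1) = n + i + 1 by ring, this]
      unfold ca cb
      ring) (by
      intro i
      have := Sq_rec' hq (n + i)
      rw [show n + (i + 2) = n + i + 2 by ring, show n + (i + 1) = n + i + 1 by ring]
      unfold cA cB cm
      linear_combination this)
  exact h

end ann

lemma kap_ne : (kap X : ℤ[X]) ≠ 0 := by
  intro h
  have h1 := congrArg (evalRingHom (2 : ℤ)) h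
  rw [kap_map, map_zero] at h1
  simp only [kap, coe_evalRingHom, eval_X] at h1
  norm_num at h1

lemma chi_coeff : (chi (C X) (X : Polynomial ℤ[X])).coeff 4 = X ^ 4 := by
  have e : chi (C X) (X : Polynomial ℤ[X]) = C (X ^ 4) * X ^ 4 -
      C (X ^ 2 * (X ^ 2 - X + 2) * (2 * X ^ 2 - X + 1)) * X ^ 3 +
      C ((1 - X) * ((2 * X ^ 2 - X + 1) ^ 2 - X ^ 3 * (X ^ 2 - X + 2) ^ 2 +
        2 * X ^ 3 * (1 - X))) * X ^ 2 +
      C (X * (1 - X) ^ 2 * (X ^ 2 - X + 2) * (2 * X ^ 2 - X + 1)) * X ^ 1 +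
      C (X ^ 2 * (1 - X) ^ 4) * X ^ 0 := by
    unfold chi
    simp only [map_add, map_sub, map_mul, map_pow, map_one, map_ofNat, pow_zero, pow_one]
    ring
  rw [e]
  simp only [coeff_add, coeff_sub, coeff_C_mul, coeff_X_pow]
  norm_num

lemma op_rho_ne : op.map rho ≠ 0 := by
  rw [op_rho]
  apply mul_ne_zero (C_ne_zero.2 kap_ne)
  intro h
  have := congrArg (fun p : Polynomial ℤ[X] => p.coeff 4) h
  simp only [chi_coeff, coeff_zero] at this
  exact pow_ne_zero 4 X_ne_zero this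

lemma op_deg : (op.map rho).natDegree = op.natDegree := by
  apply le_antisymm natDegree_map_le
  have h1 : op.natDegree ≤ 4 := by
    rw [op_eq]
    refine natDegree_add_le_of_degree_le (natDegree_add_le_of_degree_le
      (natDegree_add_le_of_degree_le (natDegree_add_le_of_degree_le ?_ ?_) ?_) ?_) ?_ <;>
    exact le_trans (natDegree_monomial_le _) (by norm_num)
  have h2 : 4 ≤ (op.map rho).natDegree := by
    apply le_natDegree_of_ne_zero
    rw [op_rho, coeff_C_mul, chi_coeff]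
    exact mul_ne_zero kap_ne (pow_ne_zero 4 X_ne_zero)
  omega

lemma Sq_map {K L : Type} [Field K] [Field L] (f : K →+* L) (q : K) (n : ℕ) :
    f (Sq q n) = Sq (f q) n := by
  unfold Sq Ac
  simp only [map_sum, map_mul, map_pow, gb_map]

/-- `Sq` does not vanish -/
lemma Sq_ne {F : Type} [Field F] {q : F}
    (hq : Function.Injective (eval₂RingHom (Int.castRingHom F) q)) (n : ℕ) : Sq q n ≠ 0 := by
  set p : ℤ[X] := Ac X 1 n with hp
  have h1 : eval₂RingHom (Int.castRingHom F) q p = Sq q n := by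
    rw [hp]
    unfold Sq Ac
    simp only [map_sum, map_mul, map_pow, gb_map]
    simp
  have h2 : p ≠ 0 := by
    intro h0
    have h3 := congrArg (evalRingHom (0 : ℤ)) h0
    rw [hp, map_zero] at h3
    unfold Ac at h3
    simp only [map_sum, map_mul, map_pow, gb_map] at h3
    rw [Finset.sum_range_succ'] at h3
    simp [gb_zero] at h3
  rw [← h1]
  intro h0
  exact h2 (hq (by rw [h0, map_zero]))

/-- the main algebraic statement -/
theorem main {F : Type} [Field F] {q : F}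
    (hq : Function.Injective (eval₂RingHom (Int.castRingHom F) q))
    (hq' : Function.Injective (eval₂RingHom (Int.castRingHom F) q⁻¹)) :
    (∃ P, IsC q (fh q) P) ∧ ∀ P, IsC q (fh q) P →
      ∃ G : ℂ[X][X], Irreducible G ∧ G ∣ (P.map rho).map (mapRingHom (Int.castRingHom ℂ)) ∧
        ∀ x y : RatFunc ℂ, evC x y G = 0 → (∃ c : ℂ, x = RatFunc.C c) ∧ ∃ c : ℂ, y = RatFunc.C c := by
  have hq0 : q ≠ 0 := by
    intro h0
    have h1 : eval₂RingHom (Int.castRingHom F) q X = eval₂RingHom (Int.castRingHom F) q 0 := by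
      simp [h0]
    exact X_ne_zero (hq h1)
  have hop0 : op ≠ 0 := by
    intro h0
    have := op_rho_ne
    rw [h0, Polynomial.map_zero] at this
    exact this rfl
  refine ⟨exists_isC hq hop0 (op_ann hq0), fun P hP => ?_⟩
  have hf : ∃ᶠ n in atTop, fh q n ≠ 0 := by
    apply Filter.Eventually.frequently
    filter_upwards with n
    unfold fh
    exact mul_ne_zero (Sq_ne hq n) (Sq_ne hq' n)
  obtain ⟨h1, κ, hκ, a, ha⟩ := isC_rho hq hf hP (op_ann hq0) op_deg op_rho_ne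
  rw [op_rho, ← mul_assoc, ← C_mul] at ha
  obtain ⟨G, hG, hG1, hG2⟩ := component h1 (mul_ne_zero hκ kap_ne) ha
  refine ⟨G, hG, hG1, fun x y hxy => ?_⟩
  apply chi_factor _ hxy
  have e : (chi (C X) (X : Polynomial ℤ[X])).map (mapRingHom (Int.castRingHom ℂ)) =
      chi (C X) (X : ℂ[X][X]) := by
    have h : (chi (C X) (X : Polynomial ℤ[X])).map (mapRingHom (Int.castRingHom ℂ)) =
      mapRingHom (mapRingHom (Int.castRingHom ℂ)) (chi (C X) (X : Polynomial ℤ[X])) := rfl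
    rw [h]
    refine (chi_map (R := Polynomial ℤ[X]) (S := ℂ[X][X])
      (mapRingHom (mapRingHom (Int.castRingHom ℂ))) (C X) X).trans ?_
    simp
  rw [← e]
  exact hG2

end Pool.Agent.J4.H94.CC
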