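import Mathlib

/-! The curve `w² = (x² - 2x + 5)(5x² - 2x + 1)` and the C-curve of `8_3` have no non-constant
parametrisation by rational functions. -/

set_option autoImplicit false

namespace Pool.Agent.J4.H94.CC

open Polynomial

lemma sq_of_coprime {a b c : ℂ[X]} (h : IsCoprime a b) (hab : a * b = c ^ 2) :
    ∃ d, a = d ^ 2 := by
  obtain ⟨d, u, hu⟩ := exists_associated_pow_of_mul_eq_pow' h hab
  obtain ⟨r, hr, hru⟩ := Polynomial.isUnit_iff.1 u.isUnit
  obtain ⟨s, hs⟩ := IsAlgClosed.exists_pow_nat_eq r (n := 2) two_pos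
  exact ⟨d * C s, by rw [mul_pow, ← C_pow, hs, ← hu, hru]⟩

lemma four_squares {A B : ℂ[X]} (h : IsCoprime A B) {l m : Fin 4 → ℂ}
    (hlm : ∀ i j, i ≠ j → l i * m j - l j * m i ≠ 0) {u : Fin 4 → ℂ[X]}
    (hu : ∀ i, C (l i) * A + C (m i) * B = u i ^ 2) : derivative A = 0 ∧ derivative B = 0 := by
  rw [← h.wronskian_eq_zero_iff]
  by_contra hW
  have hw : ∀ i j, wronskian (u i ^ 2) (u j ^ 2) = C (l i * m j - l j * m i) * wronskian A B := by
    intro i j
    rw [← hu i, ← hu j]
    unfold wronskian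
    simp only [derivative_add, derivative_mul, derivative_C, C_sub, C_mul, zero_mul, zero_add]
    ring
  have hdeg : ∀ i j, i ≠ j → (wronskian A B).natDegree < 2 * (u i).natDegree + 2 * (u j).natDegree := by
    intro i j hij
    have hne : wronskian (u i ^ 2) (u j ^ 2) ≠ 0 := by
      rw [hw]
      exact mul_ne_zero (C_ne_zero.2 (hlm i j hij)) hW
    have := natDegree_wronskian_lt_add hne
    rw [hw, natDegree_C_mul (hlm i j hij), natDegree_pow, natDegree_pow] at this
    exact this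
  have hcop : ∀ i j, i ≠ j → IsCoprime (u i) (u j) := by
    intro i j hij
    obtain ⟨a, b, hab⟩ := h
    have hd := hlm i j hij
    set d := l i * m j - l j * m i with hd'
    have h1 : IsCoprime (u i ^ 2) (u j ^ 2) := by
      refine ⟨C d⁻¹ * (a * C (m j) - b * C (l j)), C d⁻¹ * (b * C (l i) - a * C (m i)), ?_⟩
      rw [← hu i, ← hu j]
      have h2 : C d⁻¹ * (C (l i) * C (m j) - C (l j) * C (m i)) = (1 : ℂ[X]) := by
        rw [← C_mul, ← C_mul, ← C_sub, ← C_mul, ← hd', inv_mul_cancel₀ hd, C_1]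
      calc _ = (C d⁻¹ * (C (l i) * C (m j) - C (l j) * C (m i))) * (a * A + b * B) := by ring
        _ = 1 := by rw [h2, hab, one_mul]
    exact (IsCoprime.pow_iff two_pos two_pos).1 h1
  have hdvd : ∀ i, u i ∣ wronskian A B := by
    intro i
    have h1 : u i ∣ wronskian (u i ^ 2) B := by
      unfold wronskian
      refine dvd_sub (Dvd.dvd.mul_right (dvd_pow_self _ two_ne_zero) _) ?_
      rw [derivative_pow]
      exact Dvd.dvd.mul_right (Dvd.dvd.mul_right (Dvd.dvd.mul_left (by norm_num) _) _) _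
    have h2 : u i ∣ wronskian A (u i ^ 2) := by
      unfold wronskian
      refine dvd_sub ?_ (Dvd.dvd.mul_left (dvd_pow_self _ two_ne_zero) _)
      rw [derivative_pow]
      exact Dvd.dvd.mul_left (Dvd.dvd.mul_right (Dvd.dvd.mul_left (by norm_num) _) _) _
    have h3 : wronskian (u i ^ 2) B = C (l i) * wronskian A B := by
      rw [← hu i]
      unfold wronskian
      simp only [derivative_add, derivative_mul, derivative_C, zero_mul, zero_add]
      ring
    have h4 : wronskian A (u i ^ 2) = C (m i) * wronskian A B := by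
      rw [← hu i]
      unfold wronskian
      simp only [derivative_add, derivative_mul, derivative_C, zero_mul, zero_add]
      ring
    rw [h3] at h1
    rw [h4] at h2
    by_cases hl : l i = 0
    · have hm : m i ≠ 0 := by
        intro hm
        have hij : ∃ j : Fin 4, i ≠ j := by
          by_cases h0 : i = 0
          · exact ⟨1, by rw [h0]; decide⟩
          · exact ⟨0, h0⟩
        obtain ⟨j, hj⟩ := hij
        apply hlm i j hj
        rw [hl, hm]
        ring
      exact (IsUnit.dvd_mul_left (isUnit_C.2 (isUnit_iff_ne_zero.2 hm))).1 h2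
    · exact (IsUnit.dvd_mul_left (isUnit_C.2 (isUnit_iff_ne_zero.2 hl))).1 h1
  have hprod : (∏ i, u i) ∣ wronskian A B :=
    Finset.prod_dvd_of_coprime (fun i _ j _ hij => hcop i j hij) (fun i _ => hdvd i)
  have hu0 : ∀ i, u i ≠ 0 := by
    intro i hi
    have := hdvd i
    rw [hi, zero_dvd_iff] at this
    exact hW this
  have h1 := natDegree_le_of_dvd hprod hW
  rw [natDegree_prod _ _ (fun i _ => hu0 i)] at h1
  have h2 := hdeg 0 1 (by decide)
  have h3 := hdeg 2 3 (by decide)
  simp only [Fin.sum_univ_four] at h1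
  omega

/-- no non-constant rational point on `w² = (x² - 2x + 5)(5x² - 2x + 1)` -/
lemma quartic {x w : RatFunc ℂ} (h : w ^ 2 = (x ^ 2 - 2 * x + 5) * (5 * x ^ 2 - 2 * x + 1)) :
    ∃ c : ℂ, x = RatFunc.C c := by
  set A := x.num with hA
  set B := x.denom with hB
  have hB0 : B ≠ 0 := RatFunc.denom_ne_zero x
  have hcop : IsCoprime A B := RatFunc.isCoprime_num_denom x
  set f := algebraMap ℂ[X] (RatFunc ℂ) with hf
  have hfB : f B ≠ 0 := by
    rw [hf]
    exact (map_ne_zero_iff _ (RatFunc.algebraMap_injective ℂ)).2 hB0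
  have hx : x = f A / f B := (RatFunc.num_div_denom x).symm
  have h1 : (w * f B ^ 2) ^ 2 = f ((A ^ 2 - 2 * A * B + 5 * B ^ 2) *
      (5 * A ^ 2 - 2 * A * B + B ^ 2)) := by
    rw [mul_pow, h, hx]
    simp only [map_mul, map_add, map_sub, map_pow, map_ofNat]
    field_simp
  obtain ⟨c, hc⟩ := IsIntegrallyClosed.exists_algebraMap_eq_of_isIntegral_pow (R := ℂ[X])
    (K := RatFunc ℂ) (x := w * f B ^ 2) two_pos (by
      rw [h1]
      exact isIntegral_algebraMap)
  have h2 : c ^ 2 = (A ^ 2 - 2 * A * B + 5 * B ^ 2) * (5 * A ^ 2 - 2 * A * B + B ^ 2) := by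
    apply RatFunc.algebraMap_injective ℂ
    rw [map_pow, hc, h1]
  set I : ℂ := Complex.I with hI
  have hII : I * I = -1 := Complex.I_mul_I
  have hCI : (C I : ℂ[X]) * C I = -1 := by
    rw [← C_mul, hII, C_neg, C_1]
  set l : Fin 4 → ℂ := ![1, 1, 1 + 2 * I, 1 - 2 * I] with hl
  set m : Fin 4 → ℂ := ![-(1 + 2 * I), -(1 - 2 * I), -1, -1] with hm
  have hI0 : I ≠ 0 := Complex.I_ne_zero
  have hlm : ∀ i j, i ≠ j → l i * m j - l j * m i ≠ 0 := by
    have a1 : (4 : ℂ) * I ≠ 0 := mul_ne_zero (by norm_num) hI0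
    have a2 : (-4 : ℂ) + 4 * I ≠ 0 := by
      intro h0
      have := congrArg Complex.re h0
      simp [hI] at this
    have a3 : (-4 : ℂ) - 4 * I ≠ 0 := by
      intro h0
      have := congrArg Complex.re h0
      simp [hI] at this
    intro i j hij
    fin_cases i <;> fin_cases j <;> simp only [hl, hm] <;> simp at hij ⊢
    · intro h0; apply a1; linear_combination h0
    · intro h0; apply a2; linear_combination h0 - 4 * hII
    · intro h0
      have : (4 : ℂ) = 0 := by linear_combination h0 + 4 * hII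
      norm_num at this
    · intro h0; apply a1; linear_combination -h0
    · intro h0
      have : (4 : ℂ) = 0 := by linear_combination h0 + 4 * hII
      norm_num at this
    · intro h0; apply a3; linear_combination h0 - 4 * hII
    · intro h0; apply a2; linear_combination -h0 - 4 * hII
    · intro h0
      have : (4 : ℂ) = 0 := by linear_combination -h0 + 4 * hII
      norm_num at this
    · intro h0; apply a1; linear_combination -h0
    · intro h0
      have : (4 : ℂ) = 0 := by linear_combination -h0 + 4 * hII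
      norm_num at this
    · intro h0; apply a3; linear_combination -h0 - 4 * hII
    · intro h0; apply a1; linear_combination h0
  set L : Fin 4 → ℂ[X] := fun i => C (l i) * A + C (m i) * B with hL
  have hLcop : ∀ i j, i ≠ j → IsCoprime (L i) (L j) := by
    intro i j hij
    obtain ⟨a, b, hab⟩ := hcop
    have hd := hlm i j hij
    set d := l i * m j - l j * m i with hd'
    refine ⟨C d⁻¹ * (a * C (m j) - b * C (l j)), C d⁻¹ * (b * C (l i) - a * C (m i)), ?_⟩
    have h2 : C d⁻¹ * (C (l i) * C (m j) - C (l j) * C (m i)) = (1 : ℂ[X]) := by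
      rw [← C_mul, ← C_mul, ← C_sub, ← C_mul, ← hd', inv_mul_cancel₀ hd, C_1]
    calc _ = (C d⁻¹ * (C (l i) * C (m j) - C (l j) * C (m i))) * (a * A + b * B) := by
          simp only [hL]
          ring
      _ = 1 := by rw [h2, hab, one_mul]
  have hprod : ∏ i, L i = c ^ 2 := by
    rw [h2, Fin.prod_univ_four]
    simp only [hL, hl, hm]
    simp only [Matrix.cons_val_zero, Matrix.cons_val_one, Matrix.cons_val, map_one, map_neg,
      map_add, map_sub, map_mul, map_ofNat]
    have e1 : (1 * A + -(1 + 2 * C I) * B) * (1 * A + -(1 - 2 * C I) * B) =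
        A ^ 2 - 2 * A * B + 5 * B ^ 2 := by
      linear_combination (-4 * B ^ 2) * hCI
    have e2 : ((1 + 2 * C I) * A + -1 * B) * ((1 - 2 * C I) * A + -1 * B) =
        5 * A ^ 2 - 2 * A * B + B ^ 2 := by
      linear_combination (-4 * A ^ 2) * hCI
    rw [e1, mul_assoc, e2]
  have hsq : ∀ i, ∃ u, L i = u ^ 2 := by
    intro i
    have hc1 : IsCoprime (L i) (∏ j ∈ Finset.univ.erase i, L j) := by
      apply IsCoprime.prod_right
      intro j hj
      exact hLcop i j (Finset.ne_of_mem_erase hj).symm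
    exact sq_of_coprime hc1 (by rw [Finset.mul_prod_erase _ _ (Finset.mem_univ i), hprod])
  choose u hu using hsq
  obtain ⟨hA', hB'⟩ := four_squares hcop hlm hu
  have e1 := eq_C_of_natDegree_eq_zero (Polynomial.derivative_eq_zero.1 hA')
  have e2 := eq_C_of_natDegree_eq_zero (Polynomial.derivative_eq_zero.1 hB')
  refine ⟨A.coeff 0 / B.coeff 0, ?_⟩
  rw [hx, map_div₀]
  have g1 : f A = RatFunc.C (A.coeff 0) := by
    rw [e1, hf]
    simp
  have g2 : f B = RatFunc.C (B.coeff 0) := by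
    rw [e2, hf]
    simp
  rw [g1, g2]

/-- the polynomial of the C-curve of `8_3`, `x = Q`, `y = E` -/
def chi {R : Type*} [CommRing R] (x y : R) : R :=
  x ^ 4 * y ^ 4 - x ^ 2 * (x ^ 2 - x + 2) * (2 * x ^ 2 - x + 1) * y ^ 3 +
    (1 - x) * ((2 * x ^ 2 - x + 1) ^ 2 - x ^ 3 * (x ^ 2 - x + 2) ^ 2 + 2 * x ^ 3 * (1 - x)) * y ^ 2 +
    x * (1 - x) ^ 2 * (x ^ 2 - x + 2) * (2 * x ^ 2 - x + 1) * y + x ^ 2 * (1 - x) ^ 4

lemma chi_map {R S : Type*} [CommRing R] [CommRing S] (f : R →+* S) (x y : R) :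
    f (chi x y) = chi (f x) (f y) := by
  unfold chi
  simp only [map_add, map_sub, map_mul, map_pow, map_one, map_ofNat]

lemma chi_sq {R : Type*} [CommRing R] (x y : R) :
    (2 * x ^ 2 * y ^ 2 - 2 * x * (1 - x) ^ 2 - (x ^ 2 - x + 2) * (2 * x ^ 2 - x + 1) * y) ^ 2 =
      x ^ 2 * y ^ 2 * ((x ^ 2 - 2 * x + 5) * (5 * x ^ 2 - 2 * x + 1)) + 4 * chi x y := by
  unfold chi
  ring

/-- the curve `chi = 0` has no non-constant parametrisation by rational functions -/
theorem chi_const {x y : RatFunc ℂ} (h : chi x y = 0) :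
    (∃ c : ℂ, x = RatFunc.C c) ∧ ∃ c : ℂ, y = RatFunc.C c := by
  have hx : ∃ c : ℂ, x = RatFunc.C c := by
    by_contra hx
    have hx0 : x ≠ 0 := fun h0 => hx ⟨0, by rw [h0, map_zero]⟩
    have hx1 : 1 - x ≠ 0 := fun h0 => hx ⟨1, by rw [map_one]; linear_combination -h0⟩
    have hy0 : y ≠ 0 := by
      intro hy
      rw [hy] at h
      unfold chi at h
      have : x ^ 2 * (1 - x) ^ 4 = 0 := by linear_combination h
      exact mul_ne_zero (pow_ne_zero _ hx0) (pow_ne_zero _ hx1) this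
    apply hx
    have h1 := chi_sq x y
    rw [h, mul_zero, add_zero] at h1
    apply quartic (w := (2 * x ^ 2 * y ^ 2 - 2 * x * (1 - x) ^ 2 -
      (x ^ 2 - x + 2) * (2 * x ^ 2 - x + 1) * y) / (x * y))
    rw [div_pow, h1]
    field_simp
  refine ⟨hx, ?_⟩
  by_contra hy
  obtain ⟨c, hc⟩ := hx
  have ht := RatFunc.transcendental_of_ne_C y hy
  have hp : aeval y (chi (C c) (X : ℂ[X])) = 0 := by
    have e := chi_map ((aeval y : ℂ[X] →ₐ[ℂ] RatFunc ℂ) : ℂ[X] →+* RatFunc ℂ) (C c) X
    have e2 : ((aeval y : ℂ[X] →ₐ[ℂ] RatFunc ℂ) : ℂ[X] →+* RatFunc ℂ) (C c) = x := by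
      rw [hc]
      simp [RatFunc.algebraMap_eq_C]
    have e3 : ((aeval y : ℂ[X] →ₐ[ℂ] RatFunc ℂ) : ℂ[X] →+* RatFunc ℂ) X = y := by
      simp
    rw [e2, e3, h] at e
    exact e
  have hp0 : chi (C c) (X : ℂ[X]) = 0 := by
    by_contra hne
    exact ht ⟨_, hne, hp⟩
  have h4 := congrArg (fun p : ℂ[X] => p.coeff 4) hp0
  have h2 := congrArg (fun p : ℂ[X] => p.coeff 2) hp0
  have e : chi (C c) (X : ℂ[X]) = C (c ^ 4) * X ^ 4 -
      C (c ^ 2 * (c ^ 2 - c + 2) * (2 * c ^ 2 - c + 1)) * X ^ 3 +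
      C ((1 - c) * ((2 * c ^ 2 - c + 1) ^ 2 - c ^ 3 * (c ^ 2 - c + 2) ^ 2 +
        2 * c ^ 3 * (1 - c))) * X ^ 2 +
      C (c * (1 - c) ^ 2 * (c ^ 2 - c + 2) * (2 * c ^ 2 - c + 1)) * X ^ 1 +
      C (c ^ 2 * (1 - c) ^ 4) * X ^ 0 := by
    unfold chi
    simp only [map_add, map_sub, map_mul, map_pow, map_one, map_ofNat, pow_zero, pow_one]
    ring
  simp only [e, coeff_add, coeff_sub, coeff_C_mul, coeff_X_pow, coeff_zero] at h4 h2
  norm_num at h4 h2
  rw [h4] at h2
  norm_num at h2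

end Pool.Agent.J4.H94.CC
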