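import Pool.Agent.J4.H94.CC.Op
import Pool.Agent.J4.H94.CC.Rat

/-! Minimal annihilators exist, and their specialisation at `q = 1`. -/

set_option autoImplicit false

namespace Pool.Agent.J4.H94.CC

open Polynomial Filter

variable {F : Type} [Field F] {q : F}

lemma qpow_inj (hq : Function.Injective (eval₂RingHom (Int.castRingHom F) q)) :
    Function.Injective (fun n : ℕ => q ^ n) := by
  intro m n hmn
  have h : eval₂RingHom (Int.castRingHom F) q (X ^ m) = eval₂RingHom (Int.castRingHom F) q (X ^ n) := by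
    simpa using hmn
  have h2 := hq h
  have h3 := congrArg natDegree h2
  simpa using h3

/-- a nonzero coefficient vanishes for finitely many `n` only -/
lemma ev_ne (hq : Function.Injective (eval₂RingHom (Int.castRingHom F) q)) {c : A} (hc : c ≠ 0) :
    ∀ᶠ n in atTop, ev q n c ≠ 0 := by
  set p : F[X] := c.map (eval₂RingHom (Int.castRingHom F) q) with hp
  have hp0 : p ≠ 0 := (Polynomial.map_ne_zero_iff hq).2 hc
  have h1 : ∀ n, ev q n c = p.eval (q ^ n) := by
    intro n
    rw [hp, eval_map]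
    rfl
  have h2 : {n : ℕ | ev q n c = 0}.Finite := by
    have : {n : ℕ | ev q n c = 0} = (fun n : ℕ => q ^ n) ⁻¹' (p.rootSet F) := by
      ext n
      simp only [Set.mem_ofPred_eq, Set.mem_preimage, mem_rootSet, h1, coe_aeval_eq_eval]
      exact ⟨fun h => ⟨hp0, h⟩, fun h => h.2⟩
    rw [this]
    exact Set.Finite.preimage (qpow_inj hq).injOn (rootSet_finite p F)
  rw [← Nat.cofinite_eq_atTop, eventually_cofinite]
  simpa using h2

lemma ann_C_mul (hq : Function.Injective (eval₂RingHom (Int.castRingHom F) q)) {f : ℕ → F} {c : A}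
    (hc : c ≠ 0) {P : A[X]} (h : Ann q f (C c * P)) : Ann q f P := by
  unfold Ann at h ⊢
  filter_upwards [h, ev_ne hq hc] with n h1 h2
  rw [act_C_mul] at h1
  rcases mul_eq_zero.1 h1 with h3 | h3
  · exact absurd h3 h2
  · exact h3

lemma ann_mul_C {f : ℕ → F} {c : A} {P : A[X]} (h : Ann q f P) : Ann q f (C c * P) := by
  unfold Ann at h ⊢
  filter_upwards [h] with n h1
  rw [act_C_mul, h1, mul_zero]

lemma ann_sub {f : ℕ → F} {P R : A[X]} (h : Ann q f P) (h' : Ann q f R) : Ann q f (P - R) := by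
  have h1 : P - R = P + C (-1) * R := by
    rw [C_neg, C_1]
    ring
  rw [h1]
  unfold Ann at h h' ⊢
  filter_upwards [h, h'] with n e1 e2
  rw [act_add, act_C_mul, e1, e2]
  simp

/-- a nonzero annihilator of least order generates -/
lemma gen_of_min {f : ℕ → F} {P : A[X]} (hP : P ≠ 0) (hA : Ann q f P)
    (hmin : ∀ B : A[X], B ≠ 0 → Ann q f B → P.natDegree ≤ B.natDegree) (B : A[X]) (hB : Ann q f B) :
    ∃ c : A, c ≠ 0 ∧ ∃ a : A[X], C c * B = skew a P := by
  obtain ⟨c, hc, a, r, h1, h2⟩ := pdiv hP (B.natDegree + 1) B (by omega)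
  refine ⟨c, hc, a, ?_⟩
  have hr : r = C c * B - skew a P := by rw [h1]; ring
  have hra : Ann q f r := by
    rw [hr]
    exact ann_sub (ann_mul_C hB) (ann_skew q hA a)
  by_cases hr0 : r = 0
  · rw [h1, hr0, add_zero]
  · exfalso
    have h3 := hmin r hr0 hra
    have h4 := natDegree_lt_natDegree hr0 h2
    omega

/-- a generator has least order -/
lemma min_of_gen {f : ℕ → F} {P : A[X]} (h : IsC q f P) {B : A[X]} (hB0 : B ≠ 0) (hB : Ann q f B) :
    P.natDegree ≤ B.natDegree := by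
  obtain ⟨c, hc, a, ha⟩ := h.gen B hB
  have ha0 : a ≠ 0 := by
    intro h0
    rw [h0, skew_zero] at ha
    exact mul_ne_zero (C_ne_zero.2 hc) hB0 ha
  have h1 := congrArg natDegree ha
  rw [natDegree_C_mul hc, skew_coeff ha0 h.ne] at h1
  omega

/-- normalised generators exist -/
theorem exists_isC (hq : Function.Injective (eval₂RingHom (Int.castRingHom F) q)) {f : ℕ → F}
    {P₀ : A[X]} (h0 : P₀ ≠ 0) (hA : Ann q f P₀) : ∃ P, IsC q f P := by
  classical
  have hex : ∃ d : ℕ, ∃ P : A[X], P ≠ 0 ∧ Ann q f P ∧ P.natDegree = d := ⟨_, P₀, h0, hA, rfl⟩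
  obtain ⟨P, hP0, hPA, hPd⟩ := Nat.find_spec hex
  have hmin : ∀ B : A[X], B ≠ 0 → Ann q f B → P.natDegree ≤ B.natDegree := by
    intro B hB0 hB
    rw [hPd]
    exact Nat.find_min' hex ⟨B, hB0, hB, rfl⟩
  let _ := UniqueFactorizationMonoid.toNormalizedGCDMonoid A
  have hcont : P.content ≠ 0 := by
    rw [Ne, content_eq_zero_iff]
    exact hP0
  have hprim := isPrimitive_primPart P
  have hPP : Ann q f P.primPart := by
    apply ann_C_mul hq hcont
    rw [← eq_C_content_mul_primPart]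
    exact hPA
  refine ⟨P.primPart, primPart_ne_zero P, hPP, ?_, ?_⟩
  · apply gen_of_min (primPart_ne_zero P) hPP
    intro B hB0 hB
    rw [natDegree_primPart]
    exact hmin B hB0 hB
  · intro d hd
    have h1 := isPrimitive_iff_isUnit_of_C_dvd.1 hprim d ((C_dvd_iff_dvd_coeff _ _).2 hd)
    exact ⟨0, 0, h1.dvd⟩

lemma isC_rho_ne {f : ℕ → F} {P : A[X]} (h : IsC q f P) : P.map rho ≠ 0 := by
  intro h0
  obtain ⟨i, j, hij⟩ := h.norm (C (X - 1)) (by
    intro n
    apply rho_zero
    have := congrArg (fun p : Polynomial ℤ[X] => p.coeff n) h0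
    simpa using this)
  have h1 := map_dvd rho hij
  rw [rho_pi, zero_dvd_iff] at h1
  have h2 : rho (C X ^ i * X ^ j) = X ^ j := by
    simp [rho]
  rw [h2] at h1
  exact pow_ne_zero j X_ne_zero h1

/-- the specialisation of a generator at `q = 1` -/
theorem isC_rho (hq : Function.Injective (eval₂RingHom (Int.castRingHom F) q)) {f : ℕ → F}
    (hf : ∃ᶠ n in atTop, f n ≠ 0) {P P₀ : A[X]} (h : IsC q f P) (hA : Ann q f P₀)
    (hd : (P₀.map rho).natDegree = P₀.natDegree) (hP₀ : P₀.map rho ≠ 0) :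
    1 ≤ (P.map rho).natDegree ∧ ∃ κ : ℤ[X], κ ≠ 0 ∧ ∃ a : Polynomial ℤ[X],
      C κ * P₀.map rho = a * P.map rho := by
  have hP := isC_rho_ne h
  have hP₀0 : P₀ ≠ 0 := by
    intro h0
    rw [h0, Polynomial.map_zero] at hP₀
    exact hP₀ rfl
  obtain ⟨c, hc, a, ha⟩ := h.gen P₀ hA
  have hnu : ¬ IsUnit (C (X - 1) : A) := by
    intro hu
    have := hu.map rho
    rw [rho_pi] at this
    exact not_isUnit_zero this
  obtain ⟨n, c', hc', hcc⟩ := WfDvdMonoid.max_power_factor' hc hnu
  rw [hcc] at ha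
  obtain ⟨a', ha'⟩ := primitive hP n c' a ha
  have hκ : rho c' ≠ 0 := fun h0 => hc' (rho_zero h0)
  have hc'0 : c' ≠ 0 := by
    intro h0
    rw [h0, map_zero] at hκ
    exact hκ rfl
  have h1 := congrArg (Polynomial.map rho) ha'
  rw [Polynomial.map_mul, map_C, skew_rho] at h1
  refine ⟨?_, rho c', hκ, a'.map rho, h1⟩
  have ha0 : a' ≠ 0 := by
    intro h0
    rw [h0, skew_zero] at ha'
    exact mul_ne_zero (C_ne_zero.2 hc'0) hP₀0 ha'
  have ha0' : a'.map rho ≠ 0 := by
    intro h0
    rw [h0, zero_mul] at h1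
    exact mul_ne_zero (C_ne_zero.2 hκ) hP₀ h1
  have e1 := congrArg natDegree ha'
  rw [natDegree_C_mul hc'0, skew_coeff ha0 h.ne] at e1
  have e2 := congrArg natDegree h1
  rw [natDegree_C_mul hκ, natDegree_mul ha0' hP] at e2
  have e3 : (a'.map rho).natDegree ≤ a'.natDegree := natDegree_map_le
  have e4 : 1 ≤ P.natDegree := by
    by_contra hlt
    have h5 : P.natDegree = 0 := by omega
    have h6 := eq_C_of_natDegree_eq_zero h5
    have h7 : P.coeff 0 ≠ 0 := by
      intro h0
      rw [h0, C_0] at h6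
      exact h.ne h6
    have h8 := h.ann
    rw [h6] at h8
    unfold Ann at h8
    have h9 := h8.and (ev_ne hq h7)
    obtain ⟨m, hm1, hm2, hm3⟩ := (hf.and_eventually h9).exists
    rw [← monomial_zero_left, act_monomial, add_zero] at hm2
    rcases mul_eq_zero.1 hm2 with h10 | h10
    · exact hm3 h10
    · exact hm1 h10
  omega

/-- an irreducible factor of positive degree -/
lemma exists_factor {R : Type} [CommRing R] [IsDomain R] [UniqueFactorizationMonoid R] {p : R[X]}
    (hp : 1 ≤ p.natDegree) : ∃ G : R[X], Irreducible G ∧ G ∣ p ∧ 1 ≤ G.natDegree := by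
  have hp0 : p ≠ 0 := by
    intro h0
    rw [h0, natDegree_zero] at hp
    omega
  obtain ⟨s, hs, hs2⟩ := WfDvdMonoid.exists_factors p hp0
  by_contra hcon
  push Not at hcon
  have h1 : ∀ G ∈ s, G.natDegree = 0 := by
    intro G hG
    have := hcon G (hs G hG) ((Multiset.dvd_prod hG).trans hs2.dvd)
    omega
  have h2 : s.prod.natDegree = 0 := by
    have h3 := natDegree_multiset_prod_le s
    have h4 : (s.map natDegree).sum = 0 := by
      apply Multiset.sum_eq_zero
      intro x hx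
      obtain ⟨G, hG, rfl⟩ := Multiset.mem_map.1 hx
      exact h1 G hG
    omega
  have h3 : s.prod.natDegree = p.natDegree := natDegree_eq_of_degree_eq (degree_eq_degree_of_associated hs2)
  omega

/-- the component over `ℂ` -/
theorem component {p χ : Polynomial ℤ[X]} (hp : 1 ≤ p.natDegree) {κ : ℤ[X]} (hκ : κ ≠ 0)
    {a : Polynomial ℤ[X]} (h : C κ * χ = a * p) :
    ∃ G : ℂ[X][X], Irreducible G ∧ G ∣ p.map (mapRingHom (Int.castRingHom ℂ)) ∧
      G ∣ χ.map (mapRingHom (Int.castRingHom ℂ)) := by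
  set τ : ℤ[X] →+* ℂ[X] := mapRingHom (Int.castRingHom ℂ) with hτ
  have hinj : Function.Injective τ := by
    rw [hτ, coe_mapRingHom]
    exact map_injective _ (RingHom.injective_int _)
  have hpd : 1 ≤ (p.map τ).natDegree := by
    rw [natDegree_map_eq_of_injective hinj]
    exact hp
  obtain ⟨G, hG, hGp, hGd⟩ := exists_factor hpd
  refine ⟨G, hG, hGp, ?_⟩
  have h1 : G ∣ C (τ κ) * χ.map τ := by
    have h2 := congrArg (Polynomial.map τ) h
    rw [Polynomial.map_mul, Polynomial.map_mul, map_C] at h2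
    rw [h2]
    exact Dvd.dvd.mul_left hGp _
  rcases hG.prime.dvd_or_dvd h1 with h2 | h2
  · exfalso
    have hne : (C (τ κ) : ℂ[X][X]) ≠ 0 := by
      rw [Ne, C_eq_zero]
      intro h0
      exact hκ (hinj (by rw [h0, map_zero]))
    have := natDegree_le_of_dvd h2 hne
    rw [natDegree_C] at this
    omega
  · exact h2

/-- evaluation at `Q = x`, `E = y` -/
noncomputable def evC (x y : RatFunc ℂ) : ℂ[X][X] →+* RatFunc ℂ :=
  eval₂RingHom (eval₂RingHom (algebraMap ℂ (RatFunc ℂ)) x) y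

/-- no component of `chi` has a non-constant parametrisation -/
theorem chi_factor {G : ℂ[X][X]} (h : G ∣ chi (C X) (X : ℂ[X][X])) {x y : RatFunc ℂ}
    (hxy : evC x y G = 0) : (∃ c : ℂ, x = RatFunc.C c) ∧ ∃ c : ℂ, y = RatFunc.C c := by
  apply chi_const
  obtain ⟨H, hH⟩ := h
  have h1 := congrArg (evC x y) hH
  rw [map_mul, hxy, zero_mul, chi_map] at h1
  have e1 : evC x y (C X) = x := by simp [evC]
  have e2 : evC x y X = y := by simp [evC]
  rwa [e1, e2] at h1

end Pool.Agent.J4.H94.CC
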