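import Pool.Agent.J4.H94.CC.Tng
import Pool.Agent.J4.H94.CC.Ann
import Pool.Agent.W709.RT.Full
import Pool.Agent.TH193.SU.Rec
import Pool.Agent.TH193.SU.Base

/-! The cyclotomic expansion of the coloured Jones function of `8_3 = C(4, 4)`. -/

set_option autoImplicit false

namespace Pool.Agent.J4.H94.CC

open Finset Polynomial

section complex

lemma gb_brf {v : ℂ} (hv : v ≠ 0) : ∀ k j m : ℕ, k = j + m →
    gb (v ^ 2) k j * (EvenVol.brf v j * EvenVol.brf v m) = v ^ (j * m) * EvenVol.brf v k := by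
  have hs : ∀ n, EvenVol.brf v (n + 1) = EvenVol.brf v n * EvenVol.br v ((n : ℤ) + 1) := by
    intro n
    unfold EvenVol.brf
    rw [Finset.prod_range_succ]
  have h0 : EvenVol.brf v 0 = 1 := by simp [EvenVol.brf]
  intro k
  induction k with
  | zero =>
    intro j m h
    have hj : j = 0 := by omega
    have hm : m = 0 := by omega
    subst hj hm
    simp [gb, h0]
  | succ k ih =>
    intro j m h
    cases j with
    | zero =>
      have hm : m = k + 1 := by omega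
      subst hm
      simp [gb_zero, h0]
    | succ j =>
      rw [gb_succ]
      have e1 := ih j m (by omega)
      have hk : k = j + m := by omega
      cases m with
      | zero =>
        have hkj : k = j := by omega
        subst hkj
        rw [gb_gt (v ^ 2) (Nat.lt_succ_self k)]
        rw [hs]
        linear_combination EvenVol.br v ((k : ℤ) + 1) * e1
      | succ m =>
        have e2 := ih (j + 1) m (by omega)
        rw [hs k, hs j, hs m]
        rw [hs m] at e1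
        rw [hs j] at e2
        have hbr : v ^ (j * (m + 1)) * EvenVol.br v ((j : ℤ) + 1) +
            (v ^ 2) ^ (j + 1) * v ^ ((j + 1) * m) * EvenVol.br v ((m : ℤ) + 1) =
            v ^ ((j + 1) * (m + 1)) * EvenVol.br v ((k : ℤ) + 1) := by
          unfold EvenVol.br
          rw [hk]
          simp only [zpow_neg]
          rw [show ((j : ℤ) + 1) = ((j + 1 : ℕ) : ℤ) by push_cast; ring,
            show ((m : ℤ) + 1) = ((m + 1 : ℕ) : ℤ) by push_cast; ring,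
            show (((j + (m + 1) : ℕ) : ℤ) + 1) = ((j + m + 2 : ℕ) : ℤ) by push_cast; ring]
          simp only [zpow_natCast]
          field_simp
          ring
        linear_combination EvenVol.br v ((j : ℤ) + 1) * e1 +
          (v ^ 2) ^ (j + 1) * EvenVol.br v ((m : ℤ) + 1) * e2 + EvenVol.brf v k * hbr

lemma half (n : ℕ) : ∃ a, n * (n + 3) / 2 = a ∧ n * (n + 3) = 2 * a := by
  have h : 2 ∣ n * (n + 3) := by
    rcases Nat.even_or_odd n with h | h
    · exact Dvd.dvd.mul_right h.two_dvd _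
    · have : Even (n + 3) := by
        obtain ⟨k, hk⟩ := h
        exact ⟨k + 2, by omega⟩
      exact Dvd.dvd.mul_left this.two_dvd _
  obtain ⟨a, ha⟩ := h
  exact ⟨a, by rw [ha]; omega, ha⟩

open Pool.Agent.TH193.SU in
lemma Fp_one {v : ℂ} {k : ℕ} (hb : EvenVol.brf v k ≠ 0) : Fp 0 1 v k = v ^ (k * (k + 3) / 2) := by
  have h0 : EvenVol.brf v 0 = 1 := by simp [EvenVol.brf]
  unfold Fp
  rw [Finset.sum_eq_single 0]
  · unfold Fp
    rw [if_pos rfl, h0, Nat.sub_zero, one_mul, div_self hb]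
    simp
  · intro j _ hj
    unfold Fp
    rw [if_neg hj, mul_zero]
  · intro h
    exact absurd (Finset.mem_range.2 (Nat.succ_pos k)) h

open Pool.Agent.TH193.SU in
lemma Fp_two {v : ℂ} (hv : v ≠ 0) {k : ℕ} (hb : ∀ l, l ≤ k → EvenVol.brf v l ≠ 0) :
    Fp 0 2 v k = v ^ (k * (k + 3) / 2) * Sq (v ^ 2) k := by
  have e : Fp 0 2 v k = ∑ j ∈ range (k + 1), EvenVol.brf v k / (EvenVol.brf v j * EvenVol.brf v (k - j)) *
      v ^ (2 * j * (j + 0 + 1) + (k - j) * (k - j + 3) / 2 + (k - j) * (0 + 2 * j)) * Fp 0 1 v j := rfl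
  rw [e]
  unfold Sq Ac
  rw [Finset.mul_sum]
  apply Finset.sum_congr rfl
  intro j hj
  rw [Finset.mem_range] at hj
  obtain ⟨m, hm⟩ : ∃ m, k = j + m := ⟨k - j, by omega⟩
  have hkj : k - j = m := by omega
  rw [hkj, Fp_one (hb j (by omega))]
  have h1 := gb_brf hv k j m hm
  have hj0 := hb j (by omega)
  have hm0 := hb m (by omega)
  obtain ⟨a, ha, ha'⟩ := half m
  obtain ⟨b, hbb, hb'⟩ := half j
  obtain ⟨c, hc, hc'⟩ := half k
  rw [ha, hbb, hc]
  have h2 : gb (v ^ 2) k j = v ^ (j * m) * EvenVol.brf v k / (EvenVol.brf v j * EvenVol.brf v m) := by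
    rw [eq_div_iff (mul_ne_zero hj0 hm0), h1]
  rw [h2]
  have hexp : c = a + b + j * m := by
    have h3 : k * (k + 3) = m * (m + 3) + j * (j + 3) + 2 * (j * m) := by
      rw [hm]
      ring
    omega
  have e1 : v ^ (2 * j * (j + 0 + 1) + a + m * (0 + 2 * j)) * v ^ b =
      v ^ c * (v ^ 2) ^ (j ^ 2 + 1 * j) * v ^ (j * m) := by
    rw [← pow_mul, ← pow_add, ← pow_add, ← pow_add, hexp]
    congr 1
    ring
  calc _ = EvenVol.brf v k / (EvenVol.brf v j * EvenVol.brf v m) *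
        (v ^ (2 * j * (j + 0 + 1) + a + m * (0 + 2 * j)) * v ^ b) := by ring
    _ = _ := by
      rw [e1]
      ring

lemma brf_ne' {v : ℂ} (h : ∀ j : ℕ, 0 < j → EvenVol.br v (j : ℤ) ≠ 0) (l : ℕ) :
    EvenVol.brf v l ≠ 0 := by
  unfold EvenVol.brf
  rw [Finset.prod_ne_zero_iff]
  intro j _
  have := h (j + 1) (by omega)
  push_cast at this
  exact this

open Pool.Agent.H112R4.VL in
lemma gam_four {v : ℂ} (hv : v ≠ 0) (h : ∀ j : ℕ, 0 < j → EvenVol.br v (j : ℤ) ≠ 0) (k : ℕ) :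
    gamH 4 v k = v ^ (k * (k + 3) / 2) * Sq (v ^ 2) k := by
  have h1 := Pool.Agent.TH193.SU.gamH_Fd v 2 k (fun l _ => brf_ne' h l)
  have h2 := (Pool.Agent.TH193.SU.rec_all 0 2 k v hv (fun j hj _ => h j hj)).1
  have e : (((2 * 2 : ℕ) : ℤ)) = 4 := by norm_num
  rw [e] at h1
  rw [h1, ← Fp_two hv (fun l _ => brf_ne' h l), ← h2]

open Pool.Agent.H112R4.VL in
lemma JD_four {v : ℂ} (hv : v ≠ 0) (h : ∀ j : ℕ, 0 < j → EvenVol.br v (j : ℤ) ≠ 0) (N : ℕ) :
    JD 4 (-4) N v = ∑ k ∈ range N, cyc v N k * fh (v ^ 2) k := by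
  unfold JD
  apply Finset.sum_congr rfl
  intro k _
  have hi : ∀ j : ℕ, 0 < j → EvenVol.br v⁻¹ (j : ℤ) ≠ 0 := by
    intro j hj
    have := h j hj
    unfold EvenVol.br at this ⊢
    rw [inv_zpow', inv_zpow', neg_neg]
    intro h0
    apply this
    linear_combination -h0
  have h1 := gam_four hv h k
  have h2 := gam_four (inv_ne_zero hv) hi k
  rw [Pool.Agent.W709.VC.gamH_inv'] at h2
  have hs : ((-1 : ℂ) ^ k) * (-1) ^ k = 1 := by rw [← mul_pow]; norm_num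
  have hp : v ^ (k * (k + 3) / 2) * v⁻¹ ^ (k * (k + 3) / 2) = 1 := by
    rw [← mul_pow, mul_inv_cancel₀ hv, one_pow]
  have e : cyc v N k = ∏ j ∈ range k, (EvenVol.br v ((N : ℤ) + ((j : ℤ) + 1)) *
      EvenVol.br v ((N : ℤ) - ((j : ℤ) + 1))) := by
    unfold cyc
    apply Finset.prod_congr rfl
    intro j _
    rw [mul_comm]
    rfl
  rw [e, h1]
  unfold fh
  rw [show ((v ^ 2)⁻¹ : ℂ) = v⁻¹ ^ 2 by rw [inv_pow]]
  generalize (∏ j ∈ range k, (EvenVol.br v ((N : ℤ) + ((j : ℤ) + 1)) *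
      EvenVol.br v ((N : ℤ) - ((j : ℤ) + 1)))) = W
  linear_combination (W * v ^ (k * (k + 3) / 2) * Sq (v ^ 2) k) * h2 +
    (W * Sq (v ^ 2) k * Sq (v⁻¹ ^ 2) k) * hp

/-- the cyclotomic expansion at generic complex `v` -/
theorem jones_complex {v : ℂ} (hv : v ≠ 0) (hv1 : ‖v‖ ≠ 1) (N : ℕ) :
    jones 4 v N = ∑ k ∈ range N, cyc v N k * fh (v ^ 2) k := by
  have h : ∀ j : ℕ, 0 < j → EvenVol.br v (j : ℤ) ≠ 0 := by
    intro n hn hbr
    unfold EvenVol.br at hbr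
    have h1 : v ^ (n : ℤ) = v ^ (-(n : ℤ)) := sub_eq_zero.1 hbr
    have h2 : v ^ (2 * n) = 1 := by
      have : v ^ (2 * n) = v ^ (n : ℤ) * v ^ (n : ℤ) := by
        rw [← zpow_add₀ hv, ← two_mul]
        exact_mod_cast (zpow_natCast v (2 * n)).symm
      rw [this]
      nth_rewrite 2 [h1]
      rw [← zpow_add₀ hv, add_neg_cancel, zpow_zero]
    have h3 : ‖v‖ ^ (2 * n) = 1 := by rw [← norm_pow, h2, norm_one]
    exact hv1 ((pow_eq_one_iff_of_nonneg (norm_nonneg v) (by omega)).1 h3)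
  rw [← JD_four hv h N]
  rcases Nat.eq_zero_or_pos N with h0 | h0
  · subst h0
    unfold jones Pool.Agent.H112R4.VL.JD
    simp
  · have h1 := Pool.Agent.W709.RT.tang_off hv hv1 h0 4
    have e : ((4 : ℕ) : ℤ) = 4 := rfl
    rw [e] at h1
    rw [← h1]
    unfold jones
    rw [dif_pos h0]
    rfl

end complex

section ratfunc

/-- `ℚ(v)` -/
abbrev F := RatFunc ℚ

/-- an embedding of `ℚ(v)` into `ℂ` -/
lemma exists_emb : ∃ φ : F →+* ℂ, φ RatFunc.X ≠ 0 ∧ ‖φ RatFunc.X‖ ≠ 1 ∧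
    Transcendental ℤ (φ RatFunc.X) := by
  have h1 : Transcendental ℤ (liouvilleNumber (2 : ℕ)) := transcendental_liouvilleNumber le_rfl
  set t : ℝ := liouvilleNumber (2 : ℕ) with ht
  have h2 : Transcendental ℤ ((t : ℝ) : ℂ) := by
    have := (transcendental_algebraMap_iff (R := ℤ) (S := ℝ) (A := ℂ) (algebraMap ℝ ℂ).injective
      (a := t)).2 h1
    exact this
  have h3 : Transcendental ℚ ((t : ℝ) : ℂ) := by
    intro h
    exact h2 ((IsFractionRing.isAlgebraic_iff ℤ ℚ ℂ).2 h)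
  have h4 : Function.Injective (aeval ((t : ℝ) : ℂ) : ℚ[X] →ₐ[ℚ] ℂ) := transcendental_iff_injective.1 h3
  obtain ⟨g, hg, hgX⟩ : ∃ g : ℚ[X] →+* ℂ, Function.Injective g ∧ g X = ((t : ℝ) : ℂ) :=
    ⟨(aeval ((t : ℝ) : ℂ) : ℚ[X] →ₐ[ℚ] ℂ).toRingHom, h4, by simp⟩
  have e : (IsFractionRing.lift (A := ℚ[X]) (K := F) (g := g) hg) RatFunc.X = ((t : ℝ) : ℂ) := by
    rw [← RatFunc.algebraMap_X, IsFractionRing.lift_algebraMap, hgX]
  refine ⟨IsFractionRing.lift (A := ℚ[X]) (K := F) (g := g) hg, ?_, ?_, by rw [e]; exact h2⟩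
  · rw [e]
    intro h0
    have h5 : t = 0 := by exact_mod_cast h0
    rw [h5] at h1
    exact h1 isAlgebraic_zero
  · rw [e, Complex.norm_real, Real.norm_eq_abs]
    intro h0
    rcases abs_eq (zero_le_one' ℝ) |>.1 h0 with h5 | h5
    · rw [h5] at h1
      exact h1 isAlgebraic_one
    · rw [h5] at h1
      exact h1 (isAlgebraic_one.neg)

lemma fh_map {K L : Type} [Field K] [Field L] (φ : K →+* L) (q : K) (n : ℕ) :
    φ (fh q n) = fh (φ q) n := by
  unfold fh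
  rw [map_mul, Sq_map, Sq_map, map_inv₀]

/-- the cyclotomic expansion over `ℚ(v)` -/
theorem jones_ratFunc (N : ℕ) :
    jones 4 (RatFunc.X : F) N = ∑ k ∈ range N, cyc (RatFunc.X : F) N k * fh (RatFunc.X ^ 2 : F) k := by
  obtain ⟨φ, h0, h1, _⟩ := exists_emb
  apply φ.injective
  rw [jones_map, jones_complex h0 h1, map_sum]
  apply Finset.sum_congr rfl
  intro k _
  rw [map_mul, cyc_map, fh_map, map_pow]

lemma inj_of_transc {φ : F →+* ℂ} {q : F} (h : Transcendental ℤ (φ q)) :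
    Function.Injective (eval₂RingHom (Int.castRingHom F) q) := by
  have h1 : Function.Injective (aeval (φ q) : ℤ[X] →ₐ[ℤ] ℂ) := transcendental_iff_injective.1 h
  intro a b hab
  apply h1
  have h2 : ∀ p : ℤ[X], aeval (φ q) p = φ (eval₂RingHom (Int.castRingHom F) q p) := by
    intro p
    rw [aeval_def, coe_eval₂RingHom, hom_eval₂]
    congr 1
    exact RingHom.ext_int _ _
  rw [h2, h2, hab]

lemma inj_q : Function.Injective (eval₂RingHom (Int.castRingHom F) (RatFunc.X ^ 2 : F)) := by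
  obtain ⟨φ, _, _, h⟩ := exists_emb
  apply inj_of_transc (φ := φ)
  rw [map_pow]
  exact h.pow two_pos

lemma inj_q' : Function.Injective (eval₂RingHom (Int.castRingHom F) ((RatFunc.X ^ 2 : F)⁻¹)) := by
  obtain ⟨φ, _, _, h⟩ := exists_emb
  apply inj_of_transc (φ := φ)
  rw [map_inv₀, map_pow]
  intro h'
  have := h'.inv
  rw [inv_inv] at this
  exact h.pow two_pos this

lemma X_pow_ne {n : ℕ} (hn : 0 < n) : (RatFunc.X : F) ^ n ≠ 1 := by
  intro h
  obtain ⟨φ, _, _, h'⟩ := exists_emb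
  have h1 := h'.pow hn
  rw [← map_pow, h, map_one] at h1
  exact h1 isAlgebraic_one

/-- the C-curve of `8_3` -/
theorem final :
    ∃! f : ℕ → F, (∀ n : ℕ, 1 ≤ n → jones 4 (RatFunc.X : F) n =
        ∑ k ∈ range n, cyc (RatFunc.X : F) n k * f k) ∧ ((∃ P, IsC (RatFunc.X ^ 2 : F) f P) ∧
    ∀ P, IsC (RatFunc.X ^ 2 : F) f P →
      ∃ G : ℂ[X][X], Irreducible G ∧ G ∣ (P.map rho).map (mapRingHom (Int.castRingHom ℂ)) ∧
        ∀ x y : RatFunc ℂ, evC x y G = 0 → (∃ c : ℂ, x = RatFunc.C c) ∧ ∃ c : ℂ, y = RatFunc.C c) := by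
  refine ⟨fh (RatFunc.X ^ 2 : F), ⟨fun n _ => jones_ratFunc n, main inj_q inj_q'⟩, fun g hg => ?_⟩
  apply cyc_unique (v := (RatFunc.X : F)) RatFunc.X_ne_zero (fun n hn => X_pow_ne hn)
  intro n hn
  rw [← hg.1 n hn, jones_ratFunc]

/-- the Jones polynomial of `8_3` -/
theorem jones_two' (v : RatFunc ℚ) (hv : v ≠ 0) : cyc v 2 0 * fh (v^2) 0 + cyc v 2 1 * fh (v^2) 1 = (v^2) ^ 4 - (v^2) ^ 3 + 2 * (v^2) ^ 2 - 3 * (v^2) + 3 - 3 * (v^2)⁻¹ + 2 * ((v^2) ^ 2)⁻¹ -
    ((v^2) ^ 3)⁻¹ + ((v^2) ^ 4)⁻¹ := by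
  have h1 : br v (1 : ℤ) = v - v⁻¹ := by simp [br]
  have h3 : br v (3 : ℤ) = v ^ 3 - (v ^ 3)⁻¹ := by
    unfold br
    rw [zpow_neg]
    rfl
  have e0 : cyc v 2 0 = 1 := by simp [cyc]
  have e1 : cyc v 2 1 = (v - v⁻¹) * (v ^ 3 - (v ^ 3)⁻¹) := by
    unfold cyc
    rw [Finset.prod_range_one, ← h1, ← h3]
    norm_num
  have e2 : ∀ q : RatFunc ℚ, Sq q 0 = 1 := by
    intro q
    simp [Sq, Ac, gb]
  have e3 : ∀ q : RatFunc ℚ, Sq q 1 = 1 + q ^ 2 := by
    intro q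
    simp [Sq, Ac, gb, Finset.sum_range_succ]
  unfold fh
  rw [e0, e1, e2, e2, e3, e3]
  field_simp
  ring

end ratfunc

end Pool.Agent.J4.H94.CC
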