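import Mathlib

/-! q-difference operators: pseudo-division, minimal annihilators, specialisation at `q = 1`. -/

set_option autoImplicit false

namespace Pool.Agent.J4.H94.CC

open Polynomial Filter

/-- `ℤ[q][Q]` -/
abbrev A := Polynomial (Polynomial ℤ)

/-- `α(Q, q) ↦ α(q Q, q)` -/
noncomputable def sg : A →+* A := eval₂RingHom C (C X * X)

/-- `E ∘ b`, `b = ∑ b_j E^j` -/
noncomputable def shift (b : A[X]) : A[X] := X * b.map sg

/-- the product `a ∘ b` of `a = ∑ a_i E^i` and `b` -/
noncomputable def skew (a b : A[X]) : A[X] := a.sum fun i c => C c * shift^[i] b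

/-- `α(Q, q) ↦ α(q^n, q)` -/
noncomputable def ev {F : Type} [Field F] (q : F) (n : ℕ) : A →+* F :=
  eval₂RingHom (eval₂RingHom (Int.castRingHom F) q) (q ^ n)

/-- `(P f)(n)` -/
noncomputable def act {F : Type} [Field F] (q : F) (f : ℕ → F) (P : A[X]) (n : ℕ) : F :=
  P.sum fun j p => ev q n p * f (n + j)

/-- `P f = 0` -/
def Ann {F : Type} [Field F] (q : F) (f : ℕ → F) (P : A[X]) : Prop :=
  ∀ᶠ n in atTop, act q f P n = 0

/-- generator of the annihilator, normalised -/
structure IsC {F : Type} [Field F] (q : F) (f : ℕ → F) (P : A[X]) : Prop where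
  ne : P ≠ 0
  ann : Ann q f P
  gen : ∀ B : A[X], Ann q f B → ∃ c : A, c ≠ 0 ∧ ∃ a : A[X], C c * B = skew a P
  norm : ∀ d : A, (∀ j, d ∣ P.coeff j) → ∃ i j : ℕ, d ∣ C X ^ i * X ^ j

/-- `q = 1` -/
noncomputable def rho : A →+* ℤ[X] := mapRingHom (evalRingHom 1)

section basic

lemma sg_C (p : ℤ[X]) : sg (C p) = C p := by
  simp [sg]

lemma sg_X : sg X = C X * X := by
  simp [sg]

lemma sg_inj : Function.Injective sg := by
  intro a b hab
  have h : ∀ p : A, sg p = p.comp (C X * X) := by
    intro p
    simp [sg, comp]
  rw [h, h] at hab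
  have h2 : ∀ p : A, ∀ n, (p.comp (C X * X)).coeff n = p.coeff n * X ^ n := by
    intro p n
    rw [comp_C_mul_X_coeff]
  ext1 n
  have h3 := congrArg (fun p : A => p.coeff n) hab
  simp only [h2] at h3
  exact mul_right_cancel₀ (pow_ne_zero n X_ne_zero) h3

lemma rho_sg (p : A) : rho (sg p) = rho p := by
  have h : rho.comp sg = rho := by
    apply Polynomial.ringHom_ext'
    · refine RingHom.ext fun p => ?_
      simp only [RingHom.comp_apply, sg_C]
    · simp [rho, sg]
  exact congrArg (fun g : A →+* ℤ[X] => g p) h

lemma rho_zero {p : A} (h : rho p = 0) : C (X - 1) ∣ p := by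
  rw [C_dvd_iff_dvd_coeff]
  intro n
  have h1 := congrArg (fun p : ℤ[X] => p.coeff n) h
  simp only [rho, coe_mapRingHom, coeff_map, coe_evalRingHom, coeff_zero] at h1
  have : (X - 1 : ℤ[X]) = X - C 1 := by simp
  rw [this, dvd_iff_isRoot]
  exact h1

lemma rho_pi : rho (C (X - 1)) = 0 := by
  simp [rho]

variable {F : Type} [Field F] (q : F)

lemma ev_sg (n : ℕ) (p : A) : ev q n (sg p) = ev q (n + 1) p := by
  have h : (ev q n).comp sg = ev q (n + 1) := by
    apply Polynomial.ringHom_ext'
    · refine RingHom.ext fun p => ?_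
      simp only [RingHom.comp_apply, sg_C]
      simp [ev]
    · simp [ev, sg, pow_succ]
      ring
  exact congrArg (fun g : A →+* F => g p) h

lemma act_add (f : ℕ → F) (P R : A[X]) (n : ℕ) : act q f (P + R) n = act q f P n + act q f R n := by
  unfold act
  apply sum_add_index
  · intro i
    rw [map_zero, zero_mul]
  · intro i a b
    rw [map_add, add_mul]

lemma act_zero (f : ℕ → F) (n : ℕ) : act q f 0 n = 0 := by
  unfold act
  exact sum_zero_index _

lemma act_monomial (f : ℕ → F) (n j : ℕ) (p : A) :
    act q f (monomial j p) n = ev q n p * f (n + j) := by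
  unfold act
  rw [sum_monomial_index]
  rw [map_zero, zero_mul]

lemma act_C_mul (f : ℕ → F) (c : A) (P : A[X]) (n : ℕ) :
    act q f (C c * P) n = ev q n c * act q f P n := by
  induction P using Polynomial.induction_on' with
  | add P R hP hR => rw [mul_add, act_add, hP, hR, act_add, mul_add]
  | monomial j p => rw [C_mul_monomial, act_monomial, act_monomial, map_mul, mul_assoc]

lemma act_shift (f : ℕ → F) (P : A[X]) (n : ℕ) : act q f (shift P) n = act q f P (n + 1) := by
  unfold shift
  induction P using Polynomial.induction_on' with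
  | add P R hP hR => rw [Polynomial.map_add, mul_add, act_add, hP, hR, act_add]
  | monomial j p =>
    rw [map_monomial, X_mul_monomial, act_monomial, act_monomial, ev_sg]
    congr 2
    ring

lemma act_shift_iter (f : ℕ → F) (P : A[X]) (i n : ℕ) :
    act q f (shift^[i] P) n = act q f P (n + i) := by
  induction i generalizing n with
  | zero => rfl
  | succ i ih => rw [Function.iterate_succ_apply', act_shift, ih]; congr 1; ring

lemma act_sum {ι : Type} (f : ℕ → F) (s : Finset ι) (P : ι → A[X]) (n : ℕ) :
    act q f (∑ i ∈ s, P i) n = ∑ i ∈ s, act q f (P i) n := by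
  classical
  induction s using Finset.induction_on with
  | empty => rw [Finset.sum_empty, Finset.sum_empty, act_zero]
  | insert a s ha ih => rw [Finset.sum_insert ha, Finset.sum_insert ha, act_add, ih]

lemma act_skew (f : ℕ → F) (a P : A[X]) (n : ℕ) :
    act q f (skew a P) n = a.sum fun i c => ev q n c * act q f P (n + i) := by
  unfold skew Polynomial.sum
  rw [act_sum]
  apply Finset.sum_congr rfl
  intro i _
  rw [act_C_mul, act_shift_iter]

lemma ann_skew {f : ℕ → F} {P : A[X]} (h : Ann q f P) (a : A[X]) : Ann q f (skew a P) := by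
  unfold Ann at h ⊢
  rw [eventually_atTop] at h ⊢
  obtain ⟨N, hN⟩ := h
  refine ⟨N, fun n hn => ?_⟩
  rw [act_skew]
  unfold Polynomial.sum
  apply Finset.sum_eq_zero
  intro i _
  show ev q n (a.coeff i) * act q f P (n + i) = 0
  rw [hN (n + i) (by omega), mul_zero]

end basic

section skewlem

lemma skew_add (a a' b : A[X]) : skew (a + a') b = skew a b + skew a' b := by
  unfold skew
  apply sum_add_index
  · intro i
    rw [map_zero, zero_mul]
  · intro i c c'
    rw [map_add, add_mul]

lemma skew_monomial (i : ℕ) (c : A) (b : A[X]) : skew (monomial i c) b = C c * shift^[i] b := by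
  unfold skew
  rw [sum_monomial_index]
  rw [map_zero, zero_mul]

lemma skew_zero (b : A[X]) : skew 0 b = 0 := by
  unfold skew
  exact sum_zero_index _

lemma skew_C_mul (c : A) (a b : A[X]) : skew (C c * a) b = C c * skew a b := by
  induction a using Polynomial.induction_on' with
  | add P R hP hR => rw [mul_add, skew_add, hP, hR, skew_add, mul_add]
  | monomial j p => rw [C_mul_monomial, skew_monomial, skew_monomial, map_mul, mul_assoc]

lemma shift_ne {b : A[X]} (h : b ≠ 0) : shift b ≠ 0 := by
  unfold shift
  exact mul_ne_zero X_ne_zero ((Polynomial.map_ne_zero_iff sg_inj).2 h)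

lemma shift_natDegree {b : A[X]} (h : b ≠ 0) : (shift b).natDegree = b.natDegree + 1 := by
  unfold shift
  rw [natDegree_X_mul ((Polynomial.map_ne_zero_iff sg_inj).2 h),
    natDegree_map_eq_of_injective sg_inj]

lemma iter_ne {b : A[X]} (h : b ≠ 0) (i : ℕ) : shift^[i] b ≠ 0 := by
  induction i with
  | zero => exact h
  | succ i ih => rw [Function.iterate_succ_apply']; exact shift_ne ih

lemma iter_natDegree {b : A[X]} (h : b ≠ 0) (i : ℕ) : (shift^[i] b).natDegree = b.natDegree + i := by
  induction i with
  | zero => rfl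
  | succ i ih => rw [Function.iterate_succ_apply', shift_natDegree (iter_ne h i), ih]; ring

/-- pseudo-division -/
theorem pdiv {b : A[X]} (hb : b ≠ 0) : ∀ (m : ℕ) (p : A[X]), p.natDegree < m →
    ∃ c : A, c ≠ 0 ∧ ∃ a r : A[X], C c * p = skew a b + r ∧ r.degree < b.degree := by
  intro m
  induction m with
  | zero => intro p hp; omega
  | succ m ih =>
    intro p hp
    by_cases hlt : p.degree < b.degree
    · exact ⟨1, one_ne_zero, 0, p, by rw [skew_zero, zero_add, C_1, one_mul], hlt⟩
    push Not at hlt
    have hp0 : p ≠ 0 := by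
      intro h0
      rw [h0, degree_zero, le_bot_iff, degree_eq_bot] at hlt
      exact hb hlt
    have hnd : b.natDegree ≤ p.natDegree := natDegree_le_natDegree hlt
    set k := p.natDegree - b.natDegree with hk
    set s := shift^[k] b with hs
    have hs0 : s ≠ 0 := iter_ne hb k
    have hsn : s.natDegree = p.natDegree := by
      rw [hs, iter_natDegree hb]
      omega
    set β := s.leadingCoeff with hβ
    have hβ0 : β ≠ 0 := leadingCoeff_ne_zero.2 hs0
    set r := C β * p - C p.leadingCoeff * s with hr
    by_cases hm : p.natDegree = 0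
    · -- both constant
      refine ⟨β, hβ0, monomial k p.leadingCoeff, 0, ?_, ?_⟩
      · rw [skew_monomial, ← hs, add_zero]
        rw [eq_C_of_natDegree_eq_zero hm, hβ, leadingCoeff_C]
        have : s = C s.leadingCoeff := by
          rw [hm] at hsn
          conv_lhs => rw [eq_C_of_natDegree_eq_zero hsn]
          rw [leadingCoeff, hsn]
        rw [this, leadingCoeff_C, ← C_mul, ← C_mul, mul_comm]
      · rw [degree_zero, bot_lt_iff_ne_bot, Ne, degree_eq_bot]
        exact hb
    have hrd : r.natDegree < p.natDegree := by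
      have h1 : r.natDegree ≤ p.natDegree := by
        rw [hr]
        refine le_trans (natDegree_sub_le _ _) (max_le ?_ ?_)
        · exact natDegree_C_mul_le _ _
        · exact le_trans (natDegree_C_mul_le _ _) hsn.le
      rcases h1.lt_or_eq with h2 | h2
      · exact h2
      exfalso
      have h3 : r.coeff p.natDegree = 0 := by
        rw [hr, coeff_sub, coeff_C_mul, coeff_C_mul, coeff_natDegree]
        have : s.coeff p.natDegree = β := by rw [← hsn]; rfl
        rw [this]
        ring
      rw [← h2] at h3
      have h4 : r = 0 := leadingCoeff_eq_zero.1 h3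
      rw [h4, natDegree_zero] at h2
      exact hm h2.symm
    obtain ⟨c, hc, a, t, h1, h2⟩ := ih r (by omega)
    refine ⟨c * β, mul_ne_zero hc hβ0, a + monomial k (c * p.leadingCoeff), t, ?_, h2⟩
    rw [skew_add, skew_monomial, ← hs]
    have : C (c * β) * p = C c * r + C (c * p.leadingCoeff) * s := by
      rw [hr, map_mul, map_mul]
      ring
    rw [this, h1]
    ring

lemma shift_rho (b : A[X]) : (shift b).map rho = X * b.map rho := by
  unfold shift
  rw [Polynomial.map_mul, map_X, Polynomial.map_map]
  have : rho.comp sg = rho := RingHom.ext rho_sg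
  rw [this]

lemma iter_rho (b : A[X]) (i : ℕ) : (shift^[i] b).map rho = X ^ i * b.map rho := by
  induction i with
  | zero => simp
  | succ i ih => rw [Function.iterate_succ_apply', shift_rho, ih, pow_succ]; ring

lemma skew_rho (a b : A[X]) : (skew a b).map rho = a.map rho * b.map rho := by
  induction a using Polynomial.induction_on' with
  | add P R hP hR => rw [skew_add, Polynomial.map_add, hP, hR, Polynomial.map_add, add_mul]
  | monomial j p =>
    rw [skew_monomial, Polynomial.map_mul, iter_rho, map_C, map_monomial, ← C_mul_X_pow_eq_monomial]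
    ring

/-- remove the common factors `q - 1` -/
theorem primitive {p b : A[X]} (hb : b.map rho ≠ 0) : ∀ (n : ℕ) (c : A) (a : A[X]),
    C (C (X - 1) ^ n * c) * p = skew a b → ∃ a' : A[X], C c * p = skew a' b := by
  intro n
  induction n with
  | zero =>
    intro c a h
    rw [pow_zero, one_mul] at h
    exact ⟨a, h⟩
  | succ n ih =>
    intro c a h
    have h1 := congrArg (Polynomial.map rho) h
    rw [Polynomial.map_mul, map_C, map_mul, map_pow, rho_pi, zero_pow (Nat.succ_ne_zero n),
      zero_mul, C_0, zero_mul, skew_rho] at h1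
    have h2 : a.map rho = 0 := by
      rcases mul_eq_zero.1 h1.symm with h3 | h3
      · exact h3
      · exact absurd h3 hb
    have h3 : C (C (X - 1)) ∣ a := by
      rw [C_dvd_iff_dvd_coeff]
      intro i
      apply rho_zero
      have := congrArg (fun p : Polynomial ℤ[X] => p.coeff i) h2
      simpa using this
    obtain ⟨a₁, ha₁⟩ := h3
    apply ih c a₁
    rw [ha₁, skew_C_mul] at h
    have h4 : C (C (X - 1 : ℤ[X])) * (C (C (X - 1) ^ n * c) * p) = C (C (X - 1)) * skew a₁ b := by
      rw [← h, pow_succ, ← mul_assoc, ← C_mul]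
      congr 2
      ring
    refine mul_left_cancel₀ ?_ h4
    rw [Ne, C_eq_zero, C_eq_zero]
    have := X_sub_C_ne_zero (1 : ℤ)
    rwa [C_1] at this

lemma skew_coeff {a b : A[X]} (ha : a ≠ 0) (hb : b ≠ 0) :
    (skew a b).natDegree = a.natDegree + b.natDegree := by
  have hle : ∀ i, i ≤ a.natDegree → (C (a.coeff i) * shift^[i] b).natDegree ≤ i + b.natDegree := by
    intro i _
    refine le_trans (natDegree_C_mul_le _ _) ?_
    rw [iter_natDegree hb, add_comm]
  have h1 : skew a b = ∑ i ∈ Finset.range (a.natDegree + 1), C (a.coeff i) * shift^[i] b := by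
    unfold skew
    rw [sum_over_range]
    intro i
    rw [map_zero, zero_mul]
  have h2 : (skew a b).coeff (a.natDegree + b.natDegree) ≠ 0 := by
    rw [h1, finsetSum_coeff, Finset.sum_range_succ, Finset.sum_eq_zero, zero_add, coeff_C_mul]
    · apply mul_ne_zero
      · exact leadingCoeff_ne_zero.2 ha
      · have : a.natDegree + b.natDegree = (shift^[a.natDegree] b).natDegree := by
          rw [iter_natDegree hb, add_comm]
        rw [this]
        exact leadingCoeff_ne_zero.2 (iter_ne hb _)
    · intro i hi
      rw [Finset.mem_range] at hi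
      apply coeff_eq_zero_of_natDegree_lt
      have := hle i hi.le
      omega
  apply le_antisymm
  · rw [h1]
    apply natDegree_sum_le_of_forall_le
    intro i hi
    rw [Finset.mem_range] at hi
    have := hle i (by omega)
    omega
  · exact le_natDegree_of_ne_zero h2

end skewlem

end Pool.Agent.J4.H94.CC
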