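import Pool.Agent.J4.H94.CC.Gen

/-! The cyclotomic function of `8_3` and its recurrence. -/

set_option autoImplicit false

namespace Pool.Agent.J4.H94.CC

open Polynomial Filter Finset

section gauss

variable {K : Type} [CommRing K]

/-- `q`-binomial coefficients -/
def gb (q : K) : ℕ → ℕ → K
  | _, 0 => 1
  | 0, _ + 1 => 0
  | n + 1, k + 1 => gb q n k + q ^ (k + 1) * gb q n (k + 1)

lemma gb_zero (q : K) (n : ℕ) : gb q n 0 = 1 := by
  cases n <;> rfl

lemma gb_succ (q : K) (n k : ℕ) : gb q (n + 1) (k + 1) = gb q n k + q ^ (k + 1) * gb q n (k + 1) := rfl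

lemma gb_gt (q : K) : ∀ {n k : ℕ}, n < k → gb q n k = 0 := by
  intro n
  induction n with
  | zero =>
    intro k hk
    obtain ⟨k, rfl⟩ : ∃ j, k = j + 1 := ⟨k - 1, by omega⟩
    rfl
  | succ n ih =>
    intro k hk
    obtain ⟨k, rfl⟩ : ∃ j, k = j + 1 := ⟨k - 1, by omega⟩
    rw [gb_succ, ih (by omega), ih (by omega)]
    ring

lemma gb_map {L : Type} [CommRing L] (f : K →+* L) (q : K) : ∀ n k, f (gb q n k) = gb (f q) n k := by
  intro n
  induction n with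
  | zero => intro k; cases k <;> simp [gb]
  | succ n ih =>
    intro k
    cases k with
    | zero => rw [gb_zero, gb_zero, map_one]
    | succ k => rw [gb_succ, gb_succ, map_add, map_mul, map_pow, ih, ih]

lemma gb_ratio (q : K) : ∀ n k, (q ^ k - q ^ n) * gb q n k = q ^ k * (1 - q ^ (k + 1)) * gb q n (k + 1) := by
  intro n
  induction n with
  | zero =>
    intro k
    cases k with
    | zero => simp [gb]
    | succ k => simp [gb]
  | succ n ih =>
    intro k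
    cases k with
    | zero =>
      have h := ih 0
      rw [gb_zero] at h
      rw [gb_zero, gb_succ, gb_zero]
      simp only [pow_zero, zero_add, pow_one] at h ⊢
      linear_combination q * h
    | succ k =>
      have h1 := ih k
      have h2 := ih (k + 1)
      rw [gb_succ, gb_succ]
      linear_combination q * h1 + q ^ (k + 2) * h2

lemma gb_succ' (q : K) (n k : ℕ) : q ^ k * gb q (n + 1) (k + 1) = q ^ k * gb q n (k + 1) + q ^ n * gb q n k := by
  rw [gb_succ]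
  linear_combination gb_ratio q n k

/-- `∑_j q^(j² + c j) [n, j]` -/
def Ac (q : K) (c n : ℕ) : K := ∑ j ∈ range (n + 1), q ^ (j ^ 2 + c * j) * gb q n j

lemma Ac_one (q : K) (c n : ℕ) : Ac q c (n + 1) = Ac q c n + q ^ (n + 1 + c) * Ac q (c + 1) n := by
  have h1 : Ac q c (n + 1) = ∑ j ∈ range (n + 1), q ^ ((j + 1) ^ 2 + c * (j + 1)) * gb q (n + 1) (j + 1)
      + 1 := by
    unfold Ac
    rw [Finset.sum_range_succ' _ (n + 1)]
    simp [gb_zero]
  have h2 : Ac q c n = ∑ j ∈ range (n + 1), q ^ ((j + 1) ^ 2 + c * (j + 1)) * gb q n (j + 1) + 1 := by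
    have h3 : Ac q c n = ∑ j ∈ range (n + 1 + 1), q ^ (j ^ 2 + c * j) * gb q n j := by
      rw [Finset.sum_range_succ, gb_gt q (Nat.lt_succ_self n), mul_zero, add_zero]
      rfl
    rw [h3, Finset.sum_range_succ' _ (n + 1)]
    simp [gb_zero]
  rw [h1, h2]
  unfold Ac
  rw [Finset.mul_sum]
  have h4 : ∀ j ∈ range (n + 1), q ^ ((j + 1) ^ 2 + c * (j + 1)) * gb q (n + 1) (j + 1) =
      q ^ ((j + 1) ^ 2 + c * (j + 1)) * gb q n (j + 1) +
        q ^ (n + 1 + c) * (q ^ (j ^ 2 + (c + 1) * j) * gb q n j) := by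
    intro j _
    have e1 : (j + 1) ^ 2 + c * (j + 1) = (j ^ 2 + (c + 1) * j + 1 + c) + j := by ring
    rw [e1, pow_add, mul_assoc, gb_succ']
    ring
  rw [Finset.sum_congr rfl h4, Finset.sum_add_distrib]
  ring

lemma Ac_two (q : K) (c n : ℕ) : Ac q c (n + 1) = Ac q (c + 1) n + q ^ (1 + c) * Ac q (c + 2) n := by
  have h1 : Ac q c (n + 1) = ∑ j ∈ range (n + 1), q ^ ((j + 1) ^ 2 + c * (j + 1)) * gb q (n + 1) (j + 1)
      + 1 := by
    unfold Ac
    rw [Finset.sum_range_succ' _ (n + 1)]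
    simp [gb_zero]
  have h2 : Ac q (c + 1) n =
      ∑ j ∈ range (n + 1), q ^ ((j + 1) ^ 2 + (c + 1) * (j + 1)) * gb q n (j + 1) + 1 := by
    have h3 : Ac q (c + 1) n = ∑ j ∈ range (n + 1 + 1), q ^ (j ^ 2 + (c + 1) * j) * gb q n j := by
      rw [Finset.sum_range_succ, gb_gt q (Nat.lt_succ_self n), mul_zero, add_zero]
      rfl
    rw [h3, Finset.sum_range_succ' _ (n + 1)]
    simp [gb_zero]
  rw [h1, h2]
  unfold Ac
  rw [Finset.mul_sum]
  have h4 : ∀ j ∈ range (n + 1), q ^ ((j + 1) ^ 2 + c * (j + 1)) * gb q (n + 1) (j + 1) =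
      q ^ ((j + 1) ^ 2 + (c + 1) * (j + 1)) * gb q n (j + 1) +
        q ^ (1 + c) * (q ^ (j ^ 2 + (c + 2) * j) * gb q n j) := by
    intro j _
    rw [gb_succ]
    ring
  rw [Finset.sum_congr rfl h4, Finset.sum_add_distrib]
  ring

end gauss

section rec

variable {K : Type} [Field K]

/-- `∑_j q^(j (j + 1)) [n, j]` -/
def Sq (q : K) (n : ℕ) : K := Ac q 1 n

lemma Sq_rec {q : K} (hq : q ≠ 0) (n : ℕ) : Sq q (n + 2) =
    (1 + q - q ^ 2 * q ^ n + q ^ 4 * (q ^ n) ^ 2) * Sq q (n + 1) - (q - q ^ 2 * q ^ n) * Sq q n := by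
  have h1 := Ac_one q 1 n
  have h2 := Ac_one q 1 (n + 1)
  have h3 := Ac_one q 2 n
  have h4 := Ac_two q 1 n
  unfold Sq
  have hq2 : q ^ 2 ≠ 0 := pow_ne_zero _ hq
  apply mul_left_cancel₀ hq2
  simp only [show 1 + 1 = 2 from rfl, show 2 + 1 = 3 from rfl] at h1 h2 h3 h4
  rw [show n + 2 = n + 1 + 1 from rfl]
  linear_combination q ^ 2 * h2 + q ^ (n + 5) * h3 - q ^ (2 * n + 6) * h4 -
    (q ^ 3 - q ^ (n + 4)) * h1

/-- the same for `q⁻¹`, denominators cleared -/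
lemma Sq_rec' {q : K} (hq : q ≠ 0) (n : ℕ) : q ^ 4 * (q ^ n) ^ 2 * Sq q⁻¹ (n + 2) =
    (q ^ 4 * (q ^ n) ^ 2 + q ^ 3 * (q ^ n) ^ 2 - q ^ 2 * q ^ n + 1) * Sq q⁻¹ (n + 1) -
      (q ^ 3 * (q ^ n) ^ 2 - q ^ 2 * q ^ n) * Sq q⁻¹ n := by
  rw [Sq_rec (inv_ne_zero hq), inv_pow, inv_pow, inv_pow, inv_pow]
  have hQ : q ^ n ≠ 0 := pow_ne_zero _ hq
  generalize q ^ n = Q at hQ
  generalize Sq q⁻¹ (n + 1) = s
  generalize Sq q⁻¹ n = t
  field_simp

/-- the cyclotomic function -/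
def fh (q : K) (n : ℕ) : K := Sq q n * Sq q⁻¹ n

end rec

end Pool.Agent.J4.H94.CC
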