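import Mathlib

/-! The coloured Jones function of a (1,1)-tangle over a field. -/

set_option autoImplicit false

namespace Pool.Agent.J4.H94.CC

open Finset

section defs

variable {K : Type} [Field K]

/-- `{n} = v^n - v^{-n}` -/
def br (v : K) (n : ℤ) : K := v ^ n - v ^ (-n)

/-- `{n}! = {1} {2} ⋯ {n}` -/
def brf (v : K) (n : ℕ) : K := ∏ j ∈ range n, br v ((j : ℤ) + 1)

/-- positive crossing -/
def crossP (N : ℕ) (v : K) : Matrix (Fin N × Fin N) (Fin N × Fin N) K :=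
  fun p q => if (p.1 : ℕ) + p.2 = q.1 + q.2 ∧ (q.2 : ℕ) ≤ p.1 then
    v ^ (-((N : ℤ) - 1) * (1 + (q.1 : ℕ) + (q.2 : ℕ)) + 2 * (p.1 : ℕ) * (p.2 : ℕ)) *
      v ^ (((p.1 : ℕ) - q.2) * ((p.1 : ℕ) - q.2 - 1) / 2) *
      (brf v p.1 / (brf v q.2 * brf v ((p.1 : ℕ) - q.2))) *
      ∏ t ∈ range ((p.1 : ℕ) - q.2), br v ((N : ℤ) - (q.1 : ℕ) + t)
    else 0

/-- negative crossing -/
def crossN (N : ℕ) (v : K) : Matrix (Fin N × Fin N) (Fin N × Fin N) K :=
  fun p q => if (p.1 : ℕ) + p.2 = q.1 + q.2 ∧ (q.1 : ℕ) ≤ p.2 then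
    (-1) ^ ((p.2 : ℕ) - q.1) *
      v ^ (((N : ℤ) - 1) * (1 + (q.1 : ℕ) + (q.2 : ℕ)) - 2 * (q.1 : ℕ) * (q.2 : ℕ)) /
      v ^ (((p.2 : ℕ) - q.1) * ((p.2 : ℕ) - q.1 - 1) / 2) *
      (brf v p.2 / (brf v q.1 * brf v ((p.2 : ℕ) - q.1))) *
      ∏ t ∈ range ((p.2 : ℕ) - q.1), br v ((N : ℤ) - (q.2 : ℕ) + t)
    else 0

/-- a crossing on `n` strands -/
def gen {ι : Type} [DecidableEq ι] (A : Matrix (ι × ι) (ι × ι) K) (n k : ℕ) :
    Matrix (Fin n → ι) (Fin n → ι) K :=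
  fun s t => if h : k + 1 < n then
    (if ∀ j : Fin n, (j : ℕ) ≠ k → (j : ℕ) ≠ k + 1 → s j = t j then
      A (s ⟨k, by omega⟩, s ⟨k + 1, h⟩) (t ⟨k, by omega⟩, t ⟨k + 1, h⟩) else 0)
    else (if s = t then 1 else 0)

/-- a braid word -/
def rep {ι : Type} [Fintype ι] [DecidableEq ι] (P Q : Matrix (ι × ι) (ι × ι) K) (n : ℕ)
    (w : List (ℕ × Bool)) : Matrix (Fin n → ι) (Fin n → ι) K :=
  (w.map fun g => gen (if g.2 then P else Q) n g.1).prod

/-- coefficients of the invariant vector -/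
def kp (N : ℕ) (v : K) (k : ℕ) : K :=
  (-1) ^ k * v ^ ((k : ℤ) * ((N : ℤ) - 2 - k)) * (brf v k * brf v (N - 1 - k) / brf v (N - 1))

/-- cup -/
def cup (N : ℕ) (v : K) (p : Fin N × Fin N) : K :=
  if (p.1 : ℕ) + p.2 = N - 1 then kp N v p.1 else 0

/-- cap -/
def cap (N : ℕ) (v : K) (p : Fin N × Fin N) : K :=
  if (p.1 : ℕ) + p.2 = N - 1 then (kp N v p.2)⁻¹ else 0

/-- the operator of the tangle -/
def tangle (N : ℕ) (w : List (ℕ × Bool)) (v : K) : Matrix (Fin N) (Fin N) K :=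
  fun i j => ∑ p : Fin N × Fin N, ∑ q : Fin N × Fin N,
    cap N v p * rep (crossP N v) (crossN N v) 3 w ![p.1, p.2, i] ![j, q.1, q.2] * cup N v q

/-- the word of `C(A, A)` -/
def word (A : ℕ) : List (ℕ × Bool) := List.replicate A (1, false) ++ List.replicate A (0, true)

/-- the coloured Jones function -/
def jones (A : ℕ) (v : K) (N : ℕ) : K :=
  if h : 0 < N then tangle N (word A) v ⟨0, h⟩ ⟨0, h⟩ else 0

/-- `C(n, k)` -/
def cyc (v : K) (n k : ℕ) : K :=
  ∏ j ∈ range k, (br v ((n : ℤ) - ((j : ℤ) + 1)) * br v ((n : ℤ) + ((j : ℤ) + 1)))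

end defs

section map

variable {K L : Type} [Field K] [Field L] (φ : K →+* L) (v : K)

lemma br_map (n : ℤ) : φ (br v n) = br (φ v) n := by
  unfold br
  rw [map_sub, map_zpow₀, map_zpow₀]

lemma brf_map (n : ℕ) : φ (brf v n) = brf (φ v) n := by
  unfold brf
  rw [map_prod]
  exact Finset.prod_congr rfl fun j _ => br_map φ v _

lemma crossP_map (N : ℕ) : (crossP N v).map φ = crossP N (φ v) := by
  ext p q
  rw [Matrix.map_apply]
  unfold crossP
  split_ifs with h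
  · simp only [map_mul, map_zpow₀, map_pow, map_div₀, map_prod, brf_map, br_map]
  · exact map_zero φ

lemma crossN_map (N : ℕ) : (crossN N v).map φ = crossN N (φ v) := by
  ext p q
  rw [Matrix.map_apply]
  unfold crossN
  split_ifs with h
  · simp only [map_mul, map_zpow₀, map_pow, map_div₀, map_prod, brf_map, br_map, map_neg, map_one]
  · exact map_zero φ

lemma gen_map {ι : Type} [DecidableEq ι] (A : Matrix (ι × ι) (ι × ι) K) (n k : ℕ) :
    (gen A n k).map φ = gen (A.map φ) n k := by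
  ext s t
  rw [Matrix.map_apply]
  unfold gen
  split_ifs <;> simp

lemma rep_map {ι : Type} [Fintype ι] [DecidableEq ι] (P Q : Matrix (ι × ι) (ι × ι) K) (n : ℕ)
    (w : List (ℕ × Bool)) : (rep P Q n w).map φ = rep (P.map φ) (Q.map φ) n w := by
  unfold rep
  have h : ∀ M : Matrix (Fin n → ι) (Fin n → ι) K, M.map φ = φ.mapMatrix M := fun M => rfl
  rw [h, map_list_prod, List.map_map]
  congr 1
  apply List.map_congr_left
  intro g _
  rw [Function.comp_apply, ← h, gen_map]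
  split_ifs <;> rfl

lemma kp_map (N k : ℕ) : φ (kp N v k) = kp N (φ v) k := by
  unfold kp
  simp only [map_mul, map_zpow₀, map_pow, map_div₀, brf_map, map_neg, map_one]

lemma cup_map (N : ℕ) (p : Fin N × Fin N) : φ (cup N v p) = cup N (φ v) p := by
  unfold cup
  split_ifs
  · exact kp_map φ v N _
  · exact map_zero φ

lemma cap_map (N : ℕ) (p : Fin N × Fin N) : φ (cap N v p) = cap N (φ v) p := by
  unfold cap
  split_ifs
  · rw [map_inv₀, kp_map]
  · exact map_zero φ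

lemma tangle_map (N : ℕ) (w : List (ℕ × Bool)) (i j : Fin N) :
    φ (tangle N w v i j) = tangle N w (φ v) i j := by
  unfold tangle
  simp only [map_sum, map_mul]
  refine Finset.sum_congr rfl fun p _ => Finset.sum_congr rfl fun q _ => ?_
  rw [cap_map, cup_map, ← crossP_map φ v N, ← crossN_map φ v N, ← rep_map, Matrix.map_apply]

lemma jones_map (A N : ℕ) : φ (jones A v N) = jones A (φ v) N := by
  unfold jones
  split_ifs with h
  · exact tangle_map φ v N _ _ _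
  · exact map_zero φ

lemma cyc_map (n k : ℕ) : φ (cyc v n k) = cyc (φ v) n k := by
  unfold cyc
  simp only [map_prod, map_mul, br_map]

end map

section uniq

variable {K : Type} [Field K] {v : K}

lemma br_ne (hv : v ≠ 0) (h : ∀ n : ℕ, 0 < n → v ^ n ≠ 1) {n : ℕ} (hn : 0 < n) :
    br v (n : ℤ) ≠ 0 := by
  intro h0
  unfold br at h0
  rw [sub_eq_zero] at h0
  apply h (2 * n) (by omega)
  have h1 : v ^ (2 * n) = v ^ (n : ℤ) * v ^ (n : ℤ) := by
    rw [← zpow_add₀ hv, ← zpow_natCast]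
    congr 1
    push_cast
    ring
  rw [h1]
  nth_rewrite 2 [h0]
  rw [← zpow_add₀ hv, add_neg_cancel, zpow_zero]

lemma cyc_ne (hv : v ≠ 0) (h : ∀ n : ℕ, 0 < n → v ^ n ≠ 1) (n : ℕ) : cyc v (n + 1) n ≠ 0 := by
  unfold cyc
  rw [Finset.prod_ne_zero_iff]
  intro j hj
  rw [Finset.mem_range] at hj
  apply mul_ne_zero
  · have e : (((n + 1 : ℕ) : ℤ) - ((j : ℤ) + 1)) = ((n - j : ℕ) : ℤ) := by omega
    rw [e]
    exact br_ne hv h (by omega)
  · have e : (((n + 1 : ℕ) : ℤ) + ((j : ℤ) + 1)) = ((n + j + 2 : ℕ) : ℤ) := by omega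
    rw [e]
    exact br_ne hv h (by omega)

/-- the cyclotomic function is unique -/
theorem cyc_unique (hv : v ≠ 0) (h : ∀ n : ℕ, 0 < n → v ^ n ≠ 1) {f g : ℕ → K}
    (hfg : ∀ n : ℕ, 1 ≤ n → ∑ k ∈ range n, cyc v n k * f k = ∑ k ∈ range n, cyc v n k * g k) :
    f = g := by
  funext n
  induction n using Nat.strong_induction_on with
  | _ n ih =>
    have h1 := hfg (n + 1) (by omega)
    rw [Finset.sum_range_succ, Finset.sum_range_succ] at h1
    have h2 : ∑ k ∈ range n, cyc v (n + 1) k * f k = ∑ k ∈ range n, cyc v (n + 1) k * g k := by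
      apply Finset.sum_congr rfl
      intro k hk
      rw [ih k (Finset.mem_range.1 hk)]
    rw [h2] at h1
    exact mul_left_cancel₀ (cyc_ne hv h n) (add_left_cancel h1)

end uniq

end Pool.Agent.J4.H94.CC
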